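import Pool.Agent.H435.VG.Loc

/-!
Linear forms on the polynomials, and products of families.
-/

set_option autoImplicit false

open MvPolynomial FF Pool.Agent.W603.LV Pool.Agent.W603.PV Pool.Agent.TH145.GH
open Pool.Agent.Y735 (lf lf_apply lf_hom eval_lf pm lf_pm sum_pm pl po po_le exists_po fht
  fht_nonneg sum_two po_finite DD DD_apply vec vec_apply vec_scale wv dF_vec alt_tri ge_DD)
open Pool.Agent.W602.GT

namespace Pool.Agent.H435.VG

section fe

variable {L : Type} [Field L] {n : ℕ}

theorem monomial_add_single (J : Fin (n + 1) →₀ ℕ) (a : Fin (n + 1)) :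
    (monomial (J + Finsupp.single a 1) (1 : L)) = X a * monomial J 1 := by
  rw [X, monomial_mul, mul_one, add_comm J]

/-- A linear form on the forms that vanishes at the multiples of the linear forms that vanish at
a point. -/
theorem fun_eval {e : ℕ} (T : MvPolynomial (Fin (n + 1)) L →ₗ[L] L) {y : Fin (n + 1) → L}
    (hy : y ≠ 0) (h : ∀ m : Fin (n + 1) → L, ∑ l, m l * y l = 0 → ∀ J : Fin (n + 1) →₀ ℕ,
      J.degree + 1 = e → T (lf m * monomial J 1) = 0) :
    ∃ b, ∀ P : MvPolynomial (Fin (n + 1)) L, P.IsHomogeneous e → T P = b * eval y P := by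
  classical
  obtain ⟨q, hq⟩ := Function.ne_iff.1 hy
  have hq' : y q ≠ 0 := hq
  obtain ⟨t, ht⟩ : ∃ t : (Fin (n + 1) →₀ ℕ) → L, ∀ I, t I = T (monomial I 1) := ⟨_, fun _ => rfl⟩
  have hstep : ∀ (J : Fin (n + 1) →₀ ℕ) (a b : Fin (n + 1)), J.degree + 1 = e →
      y a * t (J + Finsupp.single b 1) = y b * t (J + Finsupp.single a 1) := by
    intro J a b hJ
    have h1 := h (pm y a b) (by rw [sum_pm]; ring) J hJ
    rw [lf_pm, sub_mul, smul_mul_assoc, smul_mul_assoc, map_sub, map_smul, map_smul,
      ← VG.monomial_add_single, ← VG.monomial_add_single, ← ht, ← ht, smul_eq_mul,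
      smul_eq_mul] at h1
    linear_combination h1
  have key : ∀ (N : ℕ) (I : Fin (n + 1) →₀ ℕ), I.degree = e → e - I q = N →
      y q ^ e * t I = mon y I * t (Finsupp.single q e) := by
    intro N
    induction N with
    | zero =>
      intro I hI hN
      have h1 : I = Finsupp.single q e := by
        have h2 : I q ≤ I.degree := Finsupp.le_degree q I
        have h3 : I q = e := by omega
        have h4 : Finsupp.single q e + (I - Finsupp.single q e) = I := by
          rw [add_tsub_cancel_of_le]
          rw [Finsupp.single_le_iff]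
          exact h3.ge
        have h5 := congrArg Finsupp.degree h4
        rw [map_add, Finsupp.degree_single, hI] at h5
        have h6 : (I - Finsupp.single q e).degree = 0 := by omega
        rw [Finsupp.degree_eq_zero_iff] at h6
        rw [← h4, h6, add_zero]
      rw [h1]
      congr 1
      unfold mon
      rw [Finset.prod_eq_single q]
      · rw [Finsupp.single_eq_same]
      · intro b _ hb
        rw [Finsupp.single_eq_of_ne hb, pow_zero]
      · intro h; exact absurd (Finset.mem_univ _) h
    | succ N ih =>
      intro I hI hN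
      obtain ⟨b, hb, hbI⟩ : ∃ b, b ≠ q ∧ 0 < I b := by
        by_contra hcon
        push Not at hcon
        have h1 : I.degree = I q := by
          rw [Finsupp.degree_eq_sum]
          refine Finset.sum_eq_single q (fun b _ hb => ?_) fun h => absurd (Finset.mem_univ _) h
          have := hcon b hb
          omega
        omega
      obtain ⟨J, hJ⟩ : ∃ J, J = I - Finsupp.single b 1 := ⟨_, rfl⟩
      have h1 : I = J + Finsupp.single b 1 := by
        rw [hJ, tsub_add_cancel_of_le]
        rw [Finsupp.single_le_iff]
        exact hbI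
      have h2 : J.degree + 1 = e := by
        rw [h1, map_add, Finsupp.degree_single] at hI
        exact hI
      have h3 := hstep J q b h2
      have h4 := ih (J + Finsupp.single q 1) (by rw [map_add, Finsupp.degree_single, h2]) (by
        have h5 : (J + Finsupp.single q 1 : Fin (n + 1) →₀ ℕ) q = I q + 1 := by
          rw [Finsupp.add_apply, Finsupp.single_eq_same, h1, Finsupp.add_apply,
            Finsupp.single_eq_of_ne hb.symm, add_zero]
        have h6 : (J + Finsupp.single q 1).degree = e := by
          rw [map_add, Finsupp.degree_single, h2]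
        have h7 := Finsupp.le_degree q (J + Finsupp.single q 1)
        omega)
      have h5 : mon y (J + Finsupp.single q 1) = mon y J * y q := by
        rw [mon_add]
        congr 1
        unfold mon
        rw [Finset.prod_eq_single q]
        · rw [Finsupp.single_eq_same, pow_one]
        · intro b _ hb
          rw [Finsupp.single_eq_of_ne hb, pow_zero]
        · intro h; exact absurd (Finset.mem_univ _) h
      have h6 : mon y I = mon y J * y b := by
        rw [h1, mon_add]
        congr 1
        unfold mon
        rw [Finset.prod_eq_single b]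
        · rw [Finsupp.single_eq_same, pow_one]
        · intro c _ hc
          rw [Finsupp.single_eq_of_ne hc, pow_zero]
        · intro h; exact absurd (Finset.mem_univ _) h
      rw [← h1] at h3
      rw [h5] at h4
      rw [h6]
      apply mul_left_cancel₀ hq'
      linear_combination y q ^ e * h3 + y b * h4
  refine ⟨t (Finsupp.single q e) / y q ^ e, fun P hP => ?_⟩
  have h1 : T P = ∑ I ∈ P.support, P.coeff I * t I := by
    conv_lhs => rw [P.as_sum]
    rw [map_sum]
    refine Finset.sum_congr rfl fun I _ => ?_
    have h2 : monomial I (P.coeff I) = P.coeff I • monomial I (1 : L) := by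
      rw [smul_monomial, smul_eq_mul, mul_one]
    rw [h2, map_smul, smul_eq_mul, ht]
  rw [h1, eval_mon, Finset.mul_sum]
  refine Finset.sum_congr rfl fun I hI => ?_
  have h2 := key _ I (deg_of_mem hP hI) rfl
  have h3 : y q ^ e ≠ 0 := pow_ne_zero _ hq'
  field_simp
  linear_combination P.coeff I * h2

/-- The linear form with given values at the monomials. -/
noncomputable def cQ (c : (Fin (n + 1) →₀ ℕ) → L) : MvPolynomial (Fin (n + 1)) L →ₗ[L] L :=
  (basisMonomials (Fin (n + 1)) L).constr L c

theorem cQ_monomial (c : (Fin (n + 1) →₀ ℕ) → L) (J : Fin (n + 1) →₀ ℕ) :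
    cQ c (monomial J 1) = c J := by
  have h1 : monomial J (1 : L) = (basisMonomials (Fin (n + 1)) L) J := by
    rw [coe_basisMonomials]
  rw [h1, cQ, Module.Basis.constr_basis]

theorem cQ_apply (c : (Fin (n + 1) →₀ ℕ) → L) (G : MvPolynomial (Fin (n + 1)) L) :
    cQ c G = ∑ J ∈ G.support, G.coeff J * c J := by
  conv_lhs => rw [G.as_sum]
  rw [map_sum]
  refine Finset.sum_congr rfl fun J _ => ?_
  have h2 : monomial J (G.coeff J) = G.coeff J • monomial J (1 : L) := by
    rw [smul_monomial, smul_eq_mul, mul_one]
  rw [h2, map_smul, smul_eq_mul, cQ_monomial]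

/-- Two linear forms that agree at the monomials of a degree. -/
theorem lin_hom {V : Type*} [AddCommGroup V] [Module L V]
    {T T' : MvPolynomial (Fin (n + 1)) L →ₗ[L] V} {e : ℕ}
    (h : ∀ J : Fin (n + 1) →₀ ℕ, J.degree = e → T (monomial J 1) = T' (monomial J 1))
    {G : MvPolynomial (Fin (n + 1)) L} (hG : G.IsHomogeneous e) : T G = T' G := by
  rw [G.as_sum, map_sum, map_sum]
  refine Finset.sum_congr rfl fun J hJ => ?_
  have h2 : monomial J (G.coeff J) = G.coeff J • monomial J (1 : L) := by
    rw [smul_monomial, smul_eq_mul, mul_one]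
  rw [h2, map_smul, map_smul, h J (deg_of_mem hG hJ)]

end fe

section po

variable {k L : Type} [Field k] [Field L] [Algebra k L]

theorem ge_po (P : Place k L) {ι : Type} [Finite ι] (f : ι → L) (j : ι) : Ge P (po P f) (f j) := by
  by_cases h : f j = 0
  · exact Or.inl h
  · exact Or.inr (po_le P h)

theorem le_po (P : Place k L) {ι : Type} [Finite ι] {f : ι → L} (hf : f ≠ 0) {c : ℤ}
    (h : ∀ j, Ge P c (f j)) : c ≤ po P f := by
  obtain ⟨j, hj, hjP⟩ := exists_po P hf
  rw [← hjP]
  exact (h j).resolve_left hj

/-- The order of a product of two families. -/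
theorem po_prod (P : Place k L) {ι κ : Type} [Finite ι] [Finite κ] {f : ι → L} {g : κ → L}
    (hf : f ≠ 0) (hg : g ≠ 0) :
    po P (fun q : ι × κ => f q.1 * g q.2) = po P f + po P g := by
  obtain ⟨i, hi, hiP⟩ := exists_po P hf
  obtain ⟨j, hj, hjP⟩ := exists_po P hg
  have h0 : (fun q : ι × κ => f q.1 * g q.2) ≠ 0 := by
    intro h
    exact mul_ne_zero hi hj (congrFun h (i, j))
  apply le_antisymm
  · have h1 := po_le P (f := fun q : ι × κ => f q.1 * g q.2) (j := (i, j)) (mul_ne_zero hi hj)
    refine h1.trans ?_
    dsimp only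
    rw [P.ord_mul hi hj, hiP, hjP]
  · exact le_po P h0 fun q => (ge_po P f q.1).mul (ge_po P g q.2)

variable [IsAlgClosed k] [CharZero k] [IsFF k L]

omit [IsAlgClosed k] in
theorem fht_prod {ι κ : Type} [Finite ι] [Finite κ] {f : ι → L} {g : κ → L}
    (hf : f ≠ 0) (hg : g ≠ 0) :
    fht k (fun q : ι × κ => f q.1 * g q.2) = fht k f + fht k g := by
  unfold fht
  have h1 : ∀ P : Place k L, po P (fun q : ι × κ => f q.1 * g q.2) = po P f + po P g := fun P =>
    po_prod P hf hg
  rw [finsum_congr h1, finsum_add_distrib (po_finite hf) (po_finite hg)]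
  ring

end po

end Pool.Agent.H435.VG
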