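import Pool.Agent.H435.VG.Half

/-!
The degrees of the curves in a generic surface in space.
-/

set_option autoImplicit false

open MvPolynomial FF Pool.Agent.W603.LV Pool.Agent.W603.PV Pool.Agent.TH145.GH
open Pool.Agent.Y735 (lf lf_apply lf_hom eval_lf pm tm lf_pm sum_pm sum_tm eval_pm pl po po_le
  exists_po fht fht_nonneg sum_two po_finite)
open Pool.Agent.W602.GT

namespace Pool.Agent.H435.VG

section

variable {L E : Type} [Field L] [Field E] [Algebra L E] {F : MvPolynomial (Fin (3 + 1)) L} {d : ℕ}
  {x y : Fin (3 + 1) → L} {c : (Fin (3 + 1) →₀ ℕ) → L}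

theorem cQ_map (c : (Fin (3 + 1) →₀ ℕ) → L) (G : MvPolynomial (Fin (3 + 1)) L) :
    cQ (fun J => algebraMap L E (c J)) (map (algebraMap L E) G) = algebraMap L E (cQ c G) := by
  rw [cQ_apply, cQ_apply, support_map_of_injective _ (algebraMap L E).injective, map_sum]
  refine Finset.sum_congr rfl fun J _ => ?_
  rw [coeff_map, map_mul]

/-- Linear forms that vanish on a line. -/
theorem tm_comb {x y : Fin (3 + 1) → E} {q : Fin (3 + 1) × Fin (3 + 1)} (hq : pl x y q ≠ 0)
    {m : Fin (3 + 1) → E} (hx : ∑ l, m l * x l = 0) (hy : ∑ l, m l * y l = 0) :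
    m = (pl x y q)⁻¹ • ∑ j, m j • tm (pl x y) (q.1, q.2, j) := by
  funext l
  rw [Pi.smul_apply, smul_eq_mul, Finset.sum_apply]
  have h1 : ∀ a, ∑ j, m j * pl x y (a, j) = 0 := by
    intro a
    have h2 : ∑ j, m j * pl x y (a, j) = x a * ∑ j, m j * y j - y a * ∑ j, m j * x j := by
      rw [Finset.mul_sum, Finset.mul_sum, ← Finset.sum_sub_distrib]
      exact Finset.sum_congr rfl fun j _ => by simp only [pl]; ring
    rw [h2, hx, hy]
    ring
  have h3 : ∑ j, (m j • tm (pl x y) (q.1, q.2, j)) l = pl x y q * m l := by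
    have h4 : ∀ j, (m j • tm (pl x y) (q.1, q.2, j)) l =
        (if l = j then m j * pl x y q else 0) -
          (if l = q.2 then m j * pl x y (q.1, j) else 0) +
          (if l = q.1 then m j * pl x y (q.2, j) else 0) := by
      intro j
      simp only [Pi.smul_apply, smul_eq_mul, tm]
      split_ifs <;> ring
    rw [Finset.sum_congr rfl fun j _ => h4 j, Finset.sum_add_distrib, Finset.sum_sub_distrib,
      Finset.sum_ite_eq Finset.univ l, if_pos (Finset.mem_univ l)]
    have h5 : ∀ a b, ∑ j, (if l = b then m j * pl x y (a, j) else 0) = 0 := by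
      intro a b
      split_ifs
      · exact h1 a
      · exact Finset.sum_const_zero
    rw [h5, h5]
    ring
  rw [h3]
  field_simp

/-- The extension of the field. -/
theorem LineD.ext (h : LineD F d x y c) : LineD (map (algebraMap L E) F) d
    (fun l => algebraMap L E (x l)) (fun l => algebraMap L E (y l))
    (fun J => algebraMap L E (c J)) := by
  classical
  have hpl : ∀ q, pl (fun l => algebraMap L E (x l)) (fun l => algebraMap L E (y l)) q =
      algebraMap L E (pl x y q) := fun q => by simp [pl]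
  have hplf : pl (fun l => algebraMap L E (x l)) (fun l => algebraMap L E (y l)) =
      fun q => algebraMap L E (pl x y q) := funext hpl
  obtain ⟨q, hq⟩ := Function.ne_iff.1 h.pl0
  have hq' : pl x y q ≠ 0 := hq
  have hqE : pl (fun l => algebraMap L E (x l)) (fun l => algebraMap L E (y l)) q ≠ 0 := by
    rw [hpl]
    exact (_root_.map_ne_zero _).2 hq'
  refine ⟨fun h0 => hqE (by rw [h0]; rfl), ?_, fun m hmx hmy S hS => ?_, fun p => ?_⟩
  · obtain ⟨J, hJ, hc⟩ := h.ex
    exact ⟨J, hJ, (_root_.map_ne_zero _).2 hc⟩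
  · have h1 := lin_hom (T := cQ (fun J => algebraMap L E (c J)) ∘ₗ LinearMap.mulLeft E (lf m))
      (T' := 0) (e := d - 2) (fun J hJ => ?_) hS
    · exact h1
    rw [LinearMap.comp_apply, LinearMap.mulLeft_apply, LinearMap.zero_apply, tm_comb hqE hmx hmy,
      map_smul, map_sum, smul_mul_assoc, map_smul, Finset.sum_mul, map_sum,
      Finset.sum_eq_zero, smul_zero]
    intro j _
    rw [map_smul, smul_mul_assoc, map_smul]
    have h2 : lf (tm (pl (fun l => algebraMap L E (x l)) (fun l => algebraMap L E (y l)))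
        (q.1, q.2, j)) * monomial J (1 : E) =
        map (algebraMap L E) (lf (tm (pl x y) (q.1, q.2, j)) * monomial J 1) := by
      rw [map_mul, MvPolynomial.map_monomial, (algebraMap L E).map_one]
      congr 1
      rw [lf_apply, lf_apply, map_sum]
      refine Finset.sum_congr rfl fun l _ => ?_
      rw [smul_eq_C_mul, smul_eq_C_mul, map_mul, map_C, map_X]
      congr 2
      rw [hplf]
      simp only [tm]
      rw [map_add, map_sub]
      congr 1
      · congr 1
        · split_ifs
          · rfl
          · rw [map_zero]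
        · split_ifs
          · rfl
          · rw [map_zero]
      · split_ifs
        · rfl
        · rw [map_zero]
    have h3 := sum_tm x y (q.1, q.2, j)
    rw [h2, cQ_map, h.van _ h3.1 h3.2 _ (isHomogeneous_monomial 1 hJ), map_zero, smul_zero]
  · rw [pderiv_map, cQ_map, h.jac, map_zero]

/-- The degree of the form on the line. -/
theorem deg_lt [CharZero L] (hF : F.IsHomogeneous d) (hx : eval x F = 0)
    (hne : lnp F y x ≠ 0) : (lnp F y x).natDegree < d := by
  by_contra hcon
  push Not at hcon
  obtain ⟨N, hN⟩ : ∃ N, N = (lnp F y x).natDegree := ⟨_, rfl⟩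
  rw [← hN] at hcon
  have h1 : (lnp F y x).reverse = Polynomial.X ^ (N - d) * lnp F x y := by
    refine Polynomial.eq_of_infinite_eval_eq _ _ ?_
    refine (Set.finite_singleton (0 : L)).infinite_compl.mono fun t ht => ?_
    have ht' : t ≠ 0 := ht
    change Polynomial.eval t _ = Polynomial.eval t _
    have h2 : Polynomial.eval t (lnp F y x).reverse =
        t ^ N * Polynomial.eval t⁻¹ (lnp F y x) := by
      let _ : Invertible t⁻¹ := invertibleOfNonzero (inv_ne_zero ht')
      have h3 := Polynomial.eval₂_reverse_mul_pow (RingHom.id L) t⁻¹ (lnp F y x)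
      rw [invOf_eq_inv, inv_inv, ← hN] at h3
      rw [Polynomial.eval, Polynomial.eval, ← h3, inv_pow]
      field_simp
    rw [h2, Polynomial.eval_mul, Polynomial.eval_pow, Polynomial.eval_X, lnp_eval, lnp_eval]
    have h3 : (fun l => x l + t * y l) = t • fun l => y l + t⁻¹ * x l := by
      funext l
      simp only [Pi.smul_apply, smul_eq_mul]
      field_simp
      ring
    rw [h3, eval_smul_hom hF]
    have h4 : t ^ N = t ^ (N - d) * t ^ d := by
      rw [← pow_add]
      congr 1
      omega
    rw [h4]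
    ring
  have h2 := congrArg (fun p => p.coeff 0) h1
  simp only [Polynomial.coeff_zero_reverse, Polynomial.mul_coeff_zero] at h2
  have h3 : (lnp F x y).coeff 0 = 0 := by
    rw [Polynomial.coeff_zero_eq_eval_zero, lnp_eval]
    have h4 : (fun l => x l + 0 * y l) = x := by
      funext l
      rw [zero_mul, add_zero]
    rw [h4, hx]
  rw [h3, mul_zero] at h2
  exact hne (Polynomial.leadingCoeff_eq_zero.1 h2)

end

/-- Derivations that are dual to the coefficients of a generic form. -/
theorem exists_D {k0 k L : Type} [Field k0] [Field k] [Field L] [Algebra k0 k] [Algebra k L]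
    [IsAlgClosed k] [CharZero k] {d : ℕ} {G : MvPolynomial (Fin (3 + 1)) k}
    (hgen : AlgebraicIndependent k0 fun I : {I : Fin (3 + 1) →₀ ℕ // I.degree = d} =>
      G.coeff I.1) :
    ∃ D : (Fin (3 + 1) →₀ ℕ) → Derivation ℤ L L, Dual (map (algebraMap k L) G) d D ∧
      ∀ I, Sem k (D I) := by
  obtain ⟨ι, t, ht⟩ := exists_isTranscendenceBasis' k L
  have hind : AlgebraicIndependent k0
      fun p : (_ : Unit) × {I : Fin (3 + 1) →₀ ℕ // I.degree = d} => G.coeff p.2.1 :=
    hgen.comp (fun p : (_ : Unit) × {I : Fin (3 + 1) →₀ ℕ // I.degree = d} => p.2)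
      fun p q hpq => Sigma.ext rfl (heq_of_eq hpq)
  obtain ⟨D, hD, hS, -⟩ := Pool.Agent.Y741.exists_duals_L (A := Unit) (dg := fun _ => d) ht
    (fun _ => G) hind
  refine ⟨D (), fun I J hI hJ => ⟨fun h => (hD () () I J hI hJ).1 rfl h, fun h =>
    (hD () () I J hI hJ).2 (Or.inr h)⟩, fun I => hS () I⟩

section

variable {L E : Type} [Field L] [Field E] [Algebra L E]

theorem lnp_map (G : MvPolynomial (Fin (3 + 1)) L) (u w : Fin (3 + 1) → L) :
    lnp (map (algebraMap L E) G) (fun l => algebraMap L E (u l)) (fun l => algebraMap L E (w l)) =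
      (lnp G u w).map (algebraMap L E) := by
  have h2 : ((aeval (fun l => Polynomial.C (algebraMap L E (u l)) +
        Polynomial.X * Polynomial.C (algebraMap L E (w l))) :
        MvPolynomial (Fin (3 + 1)) E →ₐ[E] Polynomial E) :
        MvPolynomial (Fin (3 + 1)) E →+* Polynomial E).comp (MvPolynomial.map (algebraMap L E)) =
      (Polynomial.mapRingHom (algebraMap L E)).comp
      ((aeval (fun l => Polynomial.C (u l) + Polynomial.X * Polynomial.C (w l)) :
        MvPolynomial (Fin (3 + 1)) L →ₐ[L] Polynomial L) :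
        MvPolynomial (Fin (3 + 1)) L →+* Polynomial L) := by
    apply MvPolynomial.ringHom_ext
    · intro c
      rw [RingHom.comp_apply, RingHom.comp_apply, map_C, RingHom.coe_coe, RingHom.coe_coe,
        aeval_C, aeval_C, Polynomial.coe_mapRingHom, Polynomial.algebraMap_eq,
        Polynomial.algebraMap_eq, Polynomial.map_C]
    · intro l
      rw [RingHom.comp_apply, RingHom.comp_apply, map_X, RingHom.coe_coe, RingHom.coe_coe,
        aeval_X, aeval_X, Polynomial.coe_mapRingHom, Polynomial.map_add, Polynomial.map_mul,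
        Polynomial.map_C, Polynomial.map_C, Polynomial.map_X]
  exact DFunLike.congr_fun h2 G

theorem eval_Pt_map (F : MvPolynomial (Fin (3 + 1)) L) (x y : Fin (3 + 1) → L) (σ : E) :
    eval (Pt (fun l => algebraMap L E (x l)) (fun l => algebraMap L E (y l)) σ)
      (map (algebraMap L E) F) = ((lnp F y x).map (algebraMap L E)).eval σ := by
  rw [← lnp_map, lnp_eval]
  congr 1
  congr 1
  funext l
  simp only [Pt]
  ring

end

section

variable {k L : Type} [Field k] [Field L] [Algebra k L] [IsAlgClosed k] [CharZero k] [IsFF k L]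

theorem half_ext {k0 : Type} [Field k0] [Algebra k0 k] {E : Type} [Field E] [Algebra k E]
    [Algebra L E] [IsScalarTower k L E] [FiniteDimensional L E] [IsFF k E] {d : ℕ} (hd : 5 ≤ d)
    {G : MvPolynomial (Fin (3 + 1)) k} (hG : G.IsHomogeneous d)
    (hgen : AlgebraicIndependent k0 fun I : {I : Fin (3 + 1) →₀ ℕ // I.degree = d} =>
      G.coeff I.1) {F : MvPolynomial (Fin (3 + 1)) L} (hFd : F = map (algebraMap k L) G)
    {x y : Fin (3 + 1) → L} {c : (Fin (3 + 1) →₀ ℕ) → L} {j0 l0 : Fin (3 + 1)} (hj0 : x j0 = 1)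
    (hl0 : Transcendental k (x l0)) (hx : eval x F = 0) (hLD : LineD F d x y c)
    {f : Polynomial L} (hf : f = lnp F y x) (hf0 : f ≠ 0) (hlt : f.natDegree < d)
    (hsp : (f.map (algebraMap L E)).Splits) :
    pht k x ≤ 2 * (fht k (pl x y) +
      fht k (fun J : {J : Fin (3 + 1) →₀ ℕ // J.degree = d - 1} => c J.1)) := by
  classical
  have hF : F.IsHomogeneous d := by rw [hFd]; exact hG.map _
  obtain ⟨D', hD', -⟩ := exists_D (L := E) hgen
  have hmm : map (algebraMap k E) G = map (algebraMap L E) F := by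
    rw [hFd, map_map, ← IsScalarTower.algebraMap_eq]
  rw [hmm] at hD'
  obtain ⟨s', hs'⟩ : ∃ s' : Multiset E, s' = (f.map (algebraMap L E)).roots := ⟨_, rfl⟩
  have hcard : s'.card = f.natDegree := by
    rw [hs']
    have := hsp.natDegree_eq_card_roots
    rw [Polynomial.natDegree_map] at this
    exact this.symm
  have hprod := hsp.eq_prod_roots
  rw [← hs', Polynomial.leadingCoeff_map] at hprod
  obtain ⟨l, hl⟩ : ∃ l : List E, (l : Multiset E) = s' := ⟨s'.toList, Multiset.coe_toList s'⟩
  have hlen : l.length = f.natDegree := by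
    rw [← hcard, ← hl, Multiset.coe_card]
  have hfac : ∀ σ : E, eval (Pt (fun l => algebraMap L E (x l))
      (fun l => algebraMap L E (y l)) σ) (map (algebraMap L E) F) =
      algebraMap L E f.leadingCoeff * ∏ i : Fin l.length, (σ - l.get i) := by
    intro σ
    rw [eval_Pt_map, ← hf, hprod, Polynomial.eval_mul, Polynomial.eval_C, ← hl, Multiset.map_coe,
      Multiset.prod_coe, Polynomial.eval_list_prod, List.map_map]
    congr 1
    rw [← List.prod_ofFn]
    congr 1
    apply List.ext_get
    · simp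
    · intro n h1 h2
      simp
  have hxE : eval (fun l => algebraMap L E (x l)) (map (algebraMap L E) F) = 0 := by
    have h1 := MvPolynomial.eval₂_comp (algebraMap L E) x F
    rw [hx, map_zero] at h1
    rw [eval_map]
    exact h1.symm
  have hhalf := half (k := k) (L := E) hd (hF.map _) hD' (fun u => by
      rw [← hmm, coeff_map]
      exact ⟨_, rfl⟩) (x := fun l => algebraMap L E (x l)) hxE (j0 := j0) (l0 := l0)
    (by rw [hj0, map_one]) ((transcendental_algebraMap_iff
      (algebraMap L E).injective).2 hl0) hLD.ext (N := l.length)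
    (r := d - f.natDegree) (by omega) (by omega) (c0 := algebraMap L E f.leadingCoeff)
    ((_root_.map_ne_zero _).2 (Polynomial.leadingCoeff_ne_zero.2 hf0))
    (fun i => l.get i) hfac
  have hfd := finite_deg 3 (d - 1)
  have h1 := fht_ext (k := k) (L := L) (E := E) (x_ne hLD.pl0)
  have h2 := fht_ext (k := k) (L := L) (E := E) hLD.pl0
  have h3 := fht_ext (k := k) (L := L) (E := E)
    (f := fun J : {J : Fin (3 + 1) →₀ ℕ // J.degree = d - 1} => c J.1) (by
      intro h0
      obtain ⟨J, hJ, hc⟩ := hLD.ex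
      exact hc (congrFun h0 ⟨J, hJ⟩))
  have h4 : pl (fun l => algebraMap L E (x l)) (fun l => algebraMap L E (y l)) =
      fun q => algebraMap L E (pl x y q) := funext fun q => by simp [pl]
  have h5 : (0 : ℤ) < Module.finrank L E := by exact_mod_cast Module.finrank_pos
  rw [← Pool.Agent.Y735.fht_fin, h4, h1, h2, h3] at hhalf
  rw [← Pool.Agent.Y735.fht_fin]
  nlinarith [hhalf]

/-- The degrees of the curves in a generic surface in space, at a normalised point. -/
theorem main1 {k0 : Type} [Field k0] [Algebra k0 k] {d : ℕ} (hd : 5 ≤ d)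
    {G : MvPolynomial (Fin (3 + 1)) k} (hG : G.IsHomogeneous d)
    (hgen : AlgebraicIndependent k0 fun I : {I : Fin (3 + 1) →₀ ℕ // I.degree = d} =>
      G.coeff I.1) {x : Fin (3 + 1) → L} {j0 l0 : Fin (3 + 1)} (hj0 : x j0 = 1)
    (hl0 : Transcendental k (x l0)) (hx : aeval x G = 0) :
    (2 * d - 9) * pht k x ≤ 2 * canDeg k L := by
  classical
  have hLz : CharZero L := charZero_of_injective_algebraMap (algebraMap k L).injective
  obtain ⟨F, hFd⟩ : ∃ F, F = map (algebraMap k L) G := ⟨_, rfl⟩
  have hF : F.IsHomogeneous d := by rw [hFd]; exact hG.map _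
  have hxF : eval x F = 0 := by
    rw [hFd, eval_map]
    exact hx
  have hFk : ∀ u, ∃ c : k, F.coeff u = algebraMap k L c := fun u => by
    rw [hFd, coeff_map]
    exact ⟨_, rfl⟩
  obtain ⟨D, hD, hS⟩ := exists_D (L := L) hgen
  rw [← hFd] at hD
  obtain ⟨δ, hδ⟩ := exists_der (k := k) (K := L)
  have hcv : Cv k F d D δ x j0 := by
    refine ⟨by omega, hF, hD, hS, hFk, hδ, hxF, by rw [hj0]; exact one_ne_zero,
      fun a b hab => ?_⟩
    have h1 := hab j0
    rw [hj0, δ.map_one_eq_zero, mul_zero, add_zero, mul_one] at h1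
    have h2 := hab l0
    rw [h1, zero_mul, zero_add] at h2
    exact (mul_eq_zero.1 h2).resolve_right (der_ne_zero hδ hl0)
  rcases hcv.part1 hd with h1 | ⟨y, c, hLD, hdeg⟩
  · exact h1
  have hne : lnp F y x ≠ 0 := no_line hF hD (by omega) (by
    intro h0
    apply hLD.pl0
    funext q
    have h4 := congrFun h0 q
    simp only [pl, Pi.zero_apply] at h4 ⊢
    linear_combination -h4)
  have hlt := deg_lt hF hxF hne
  obtain ⟨f, hf⟩ : ∃ f, f = lnp F y x := ⟨_, rfl⟩
  have hfd : FiniteDimensional L f.SplittingField := inferInstance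
  have hFFE : IsFF k f.SplittingField := isFF_of_finite (F := L)
  have h2 := half_ext (E := f.SplittingField) hd hG hgen hFd hj0 hl0 hxF hLD hf
    (by rw [hf]; exact hne) (by rw [hf]; exact hlt) (Polynomial.SplittingField.splits f)
  linarith

/-- The degrees of the curves in a generic surface in space. -/
theorem main2 {k0 : Type} [Field k0] [Algebra k0 k] {d : ℕ} (hd : 5 ≤ d)
    {G : MvPolynomial (Fin (3 + 1)) k} (hG : G.IsHomogeneous d)
    (hgen : AlgebraicIndependent k0 fun I : {I : Fin (3 + 1) →₀ ℕ // I.degree = d} =>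
      G.coeff I.1) {x : Fin (3 + 1) → L} {a b : Fin (3 + 1)} (hb : x b ≠ 0)
    (hab : Transcendental k (x a / x b)) (hx : aeval x G = 0) :
    (2 * d - 9) * pht k x ≤ 2 * canDeg k L := by
  have h1 := pht_scale (k := k) (f := x) ⟨b, hb⟩ (inv_ne_zero hb)
  rw [← h1]
  refine main1 hd hG hgen (j0 := b) (l0 := a) (inv_mul_cancel₀ hb) ?_ ?_
  · rw [mul_comm, ← div_eq_mul_inv]
    exact hab
  · have h2 := eval_smul_hom (hG.map (algebraMap k L)) x (x b)⁻¹
    rw [eval_map, eval_map] at h2
    have h3 : (fun j => (x b)⁻¹ * x j) = (x b)⁻¹ • x := rfl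
    rw [h3]
    change eval₂ (algebraMap k L) ((x b)⁻¹ • x) G = 0
    rw [h2]
    have h4 : eval₂ (algebraMap k L) x G = 0 := hx
    rw [h4, mul_zero]

end

end Pool.Agent.H435.VG
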