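import Pool.Graph.R_seed8.Y735.R.Disc
import Pool.Agent.H435.VG.Fe

/-!
Heights in finite extensions, and heights on a line.
-/

set_option autoImplicit false

open MvPolynomial FF Pool.Agent.W603.LV Pool.Agent.W603.PV Pool.Agent.TH145.GH
open Pool.Agent.Y735 (lf lf_apply lf_hom eval_lf pm lf_pm sum_pm eval_pm pl po po_le exists_po fht
  fht_nonneg sum_two po_finite)
open Pool.Agent.W602.GT

namespace Pool.Agent.H435.VG

section ext

variable {k L E : Type} [Field k] [Field L] [Field E] [Algebra k L] [Algebra k E]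
    [Algebra L E] [IsScalarTower k L E] [FiniteDimensional L E] [IsAlgClosed k] [CharZero k]
    [IsFF k L] [IsFF k E]

omit [FiniteDimensional L E] in
theorem po_ext (P : Place k E) {ι : Type} [Finite ι] {f : ι → L} (hf : f ≠ 0) :
    po P (fun j => algebraMap L E (f j)) = ram L P * po (under L P) f := by
  obtain ⟨i, hi⟩ := Function.ne_iff.1 hf
  have hi' : f i ≠ 0 := hi
  have h0 : (0 : ℤ) ≤ ram L P := by positivity
  have hne : (fun j => algebraMap L E (f j)) ≠ 0 := fun h =>
    (_root_.map_ne_zero _).2 hi' (congrFun h i)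
  obtain ⟨j, hj, hjo⟩ := exists_po (under L P) hf
  obtain ⟨l, hl, hlo⟩ := exists_po P hne
  have hl' : f l ≠ 0 := (_root_.map_ne_zero _).1 hl
  apply le_antisymm
  · rw [← hjo, ← ord_under]
    exact po_le P (f := fun j => algebraMap L E (f j)) ((_root_.map_ne_zero _).2 hj)
  · rw [← hlo, ord_under]
    exact mul_le_mul_of_nonneg_left (po_le (under L P) hl') h0

omit [FiniteDimensional L E] in
/-- The height in a finite extension. -/
theorem fht_ext {ι : Type} [Finite ι] {f : ι → L} (hf : f ≠ 0) :
    fht k (fun j => algebraMap L E (f j)) = Module.finrank L E * fht k f := by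
  classical
  have h1 := po_finite (k := k) hf
  obtain ⟨V, hV⟩ : ∃ V : Finset (Place k L), ∀ v, v ∈ V ↔ po v f ≠ 0 :=
    ⟨h1.toFinset, fun v => by rw [Set.Finite.mem_toFinset]; rfl⟩
  have h2 := finite_over_set (L := E) V.finite_toSet
  obtain ⟨T, hT⟩ : ∃ T : Finset (Place k E), ∀ P, P ∈ T ↔ under L P ∈ V :=
    ⟨h2.toFinset, fun v => by rw [Set.Finite.mem_toFinset]; rfl⟩
  unfold fht
  rw [finsum_eq_sum_of_support_subset (s := T), finsum_eq_sum_of_support_subset (s := V)]
  · rw [← Finset.sum_fiberwise_of_maps_to (t := V) (g := fun P => under L P)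
      (fun P hP => (hT P).1 hP), mul_neg, Finset.mul_sum]
    congr 1
    refine Finset.sum_congr rfl fun v hv => ?_
    rw [← Pool.Agent.Y735.R.sum_ram (F := L) (L := E) v (T.filter fun P => under L P = v)
      fun P => by
        rw [Finset.mem_filter, hT]
        constructor
        · intro h
          exact ⟨by rw [h]; exact hv, h⟩
        · exact fun h => h.2, Finset.sum_mul]
    refine Finset.sum_congr rfl fun P hP => ?_
    rw [po_ext P hf, (Finset.mem_filter.1 hP).2]
  · intro v hv
    exact (hV v).2 hv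
  · intro P hP
    have hP' : po P (fun j => algebraMap L E (f j)) ≠ 0 := hP
    rw [po_ext P hf] at hP'
    exact (hT P).2 ((hV _).2 (right_ne_zero_of_mul hP'))

end ext

end Pool.Agent.H435.VG
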