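import Pool.Agent.H435.VG.One
import Pool.Graph.R_seed8.TH145.GH.DataE

/-!
The degree of a curve in a generic surface, or the line that is attached to its points.
-/

set_option autoImplicit false

open MvPolynomial FF Pool.Agent.W603.LV Pool.Agent.W603.PV Pool.Agent.TH145.GH
open Pool.Agent.Y735 (lf lf_apply lf_hom eval_lf pm lf_pm sum_pm eval_pm pl po po_le exists_po fht
  fht_nonneg sum_two po_finite DD DD_apply vec vec_apply vec_scale wv dF_vec alt_tri ge_DD ge_lf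
  ge_coeff_mul)
open Pool.Agent.W602.GT

namespace Pool.Agent.H435.VG

open Pool.Agent.H435.QL (GeM)

/-- A linear form on the forms of degree `d - 1` on the line through `x` and `y`, that vanishes at
the derivatives of `F`. -/
structure LineD {L : Type} [Field L] (F : MvPolynomial (Fin (3 + 1)) L) (d : ℕ)
    (x y : Fin (3 + 1) → L) (c : (Fin (3 + 1) →₀ ℕ) → L) : Prop where
  pl0 : pl x y ≠ 0
  ex : ∃ J, J.degree = d - 1 ∧ c J ≠ 0
  van : ∀ m : Fin (3 + 1) → L, ∑ l, m l * x l = 0 → ∑ l, m l * y l = 0 →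
    ∀ S : MvPolynomial (Fin (3 + 1)) L, S.IsHomogeneous (d - 2) → cQ c (lf m * S) = 0
  jac : ∀ p, cQ c (pderiv p F) = 0

section

variable {k L : Type} [Field k] [Field L] [Algebra k L] [IsAlgClosed k] [CharZero k] [IsFF k L]
  {F : MvPolynomial (Fin (3 + 1)) L} {d : ℕ}
  {D : (Fin (3 + 1) →₀ ℕ) → Derivation ℤ L L} {δ : Derivation k L L} {x : Fin (3 + 1) → L}
  {i0 : Fin (3 + 1)}

/-- The degree of a curve in a generic surface, or the line that is attached to its points. -/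
theorem Cv.part1 (h : Cv k F d D δ x i0) (hd : 5 ≤ d) :
    (2 * d - 9) * pht k x ≤ 2 * canDeg k L ∨ ∃ (y : Fin (3 + 1) → L)
      (c : (Fin (3 + 1) →₀ ℕ) → L), LineD F d x y c ∧
      (d - 5) * pht k x + fht k (pl x y) +
        fht k (fun J : {J : Fin (3 + 1) →₀ ℕ // J.degree = d - 1} => c J.1) ≤ canDeg k L := by
  classical
  have hx0 : x ≠ 0 := by
    rintro rfl
    exact h.ne rfl
  have hp0 : 0 ≤ pht k x := Pool.Agent.Y741.pht_nonneg hx0
  have hd' : (5 : ℤ) ≤ d := by exact_mod_cast hd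
  by_cases hw : ∃ pq, Lx D d δ x i0 (wv F D x pq) ≠ 0
  · obtain ⟨pq, hpq⟩ := hw
    left
    have h1 := h.degA hpq
    nlinarith
  push Not at hw
  obtain ⟨a0, b0, J0, hJ0, hΦ0⟩ := h.exists_Phi hw
  have hfd := finite_deg 3 (d - 1)
  obtain ⟨y, hy⟩ : ∃ y, y = Yx D d δ x i0 J0 := ⟨_, rfl⟩
  have hpl : pl x y (a0, b0) ≠ 0 := by
    rw [hy, ← Phi_eq h.ne]
    exact hΦ0
  have hpl0 : pl x y ≠ 0 := fun h0 => hpl (by rw [h0]; rfl)
  have hyi : y i0 = 0 := by rw [hy, Yx_i0]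
  by_cases hM : ∃ J a b c, J.degree = d - 1 ∧
    x a * (y b * Yx D d δ x i0 J c - y c * Yx D d δ x i0 J b) -
      x b * (y a * Yx D d δ x i0 J c - y c * Yx D d δ x i0 J a) +
      x c * (y a * Yx D d δ x i0 J b - y b * Yx D d δ x i0 J a) ≠ 0
  · -- two lines
    left
    obtain ⟨J, a, b, c, hJ, hM⟩ := hM
    obtain ⟨Θ, hΘ⟩ : ∃ Θ : (Fin (3 + 1) × Fin (3 + 1)) × {J : Fin (3 + 1) →₀ ℕ //
        J.degree = d - 1} → L, ∀ q, Θ q = Phi D d δ x i0 q.1.1 q.1.2 q.2.1 := ⟨_, fun _ => rfl⟩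
    have hΘ0 : Θ ≠ 0 := by
      intro h0
      apply hΦ0
      have h1 := congrFun h0 ((a0, b0), ⟨J0, hJ0⟩)
      rw [hΘ] at h1
      exact h1
    have h1 := h.deg_fam hΘ0 fun P j => by
      rw [hΘ]
      exact h.ge_Phi P _ _ j.2.2
    have h2 := two_lines (k := k) hΘ0 hx0 (y := y) (z := Yx D d δ x i0 J)
      (fun q => ⟨(q, ⟨J0, hJ0⟩), by rw [hΘ, Phi_eq h.ne, hy]⟩)
      (fun q => ⟨(q, ⟨J, hJ⟩), by rw [hΘ, Phi_eq h.ne]⟩) hM
    nlinarith
  push Not at hM
  right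
  obtain ⟨b1, hb1⟩ : ∃ b1, y b1 ≠ 0 := by
    by_contra hcon
    push Not at hcon
    apply hpl
    simp only [pl]
    rw [hcon, hcon]
    ring
  have hprop : ∀ J : Fin (3 + 1) →₀ ℕ, J.degree = d - 1 → ∀ l, Yx D d δ x i0 J l =
      Yx D d δ x i0 J b1 / y b1 * y l := by
    intro J hJ l
    have h1 := hM J i0 b1 l hJ
    have h2 : Yx D d δ x i0 J i0 = 0 := Yx_i0 J
    rw [h2, hyi] at h1
    have h3 : x i0 * (y b1 * Yx D d δ x i0 J l - y l * Yx D d δ x i0 J b1) = 0 := by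
      linear_combination h1
    have h4 := (mul_eq_zero.1 h3).resolve_left h.ne
    field_simp
    linear_combination h4
  obtain ⟨c, hc⟩ : ∃ c : (Fin (3 + 1) →₀ ℕ) → L, ∀ J, c J = Yx D d δ x i0 J b1 / y b1 :=
    ⟨_, fun _ => rfl⟩
  -- the volumes of the products
  have hprod : ∀ (m : Fin (3 + 1) → L), ∑ l, m l * x l = 0 → ∀ R : MvPolynomial (Fin (3 + 1)) L,
      R.IsHomogeneous (d - 1) → Lx D d δ x i0 (vec D x (lf m * R)) =
        (∑ l, m l * y l) * cQ c R := by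
    intro m hm R hR
    have h1 := lin_hom (T := (Lx D d δ x i0) ∘ₗ vec D x ∘ₗ LinearMap.mulLeft L (lf m))
      (T' := (∑ l, m l * y l) • cQ c) (e := d - 1) (fun J hJ => ?_) hR
    · exact h1
    · rw [LinearMap.comp_apply, LinearMap.comp_apply, LinearMap.mulLeft_apply,
        LinearMap.smul_apply, cQ_monomial, Yx_spec h.ne J hm, smul_eq_mul, Finset.sum_mul]
      refine Finset.sum_congr rfl fun l _ => ?_
      rw [hprop J hJ l, hc]
      ring
  obtain ⟨m1, hm1, hm1y⟩ : ∃ m1 : Fin (3 + 1) → L, ∑ l, m1 l * x l = 0 ∧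
      ∑ l, m1 l * y l ≠ 0 := by
    refine ⟨pm x a0 b0, by rw [← eval_lf]; exact eval_pm x a0 b0, ?_⟩
    rw [sum_pm]
    exact hpl
  have hcJ0 : c J0 ≠ 0 := by
    rw [hc, ← hy]
    exact div_ne_zero hb1 hb1
  refine ⟨y, c, ⟨hpl0, ⟨J0, hJ0, hcJ0⟩, fun m hmx hmy S hS => ?_, fun p => ?_⟩, ?_⟩
  · have h1 : (lf m * S).IsHomogeneous (d - 1) := by
      have h2 := (lf_hom m).mul hS
      have h3 : 1 + (d - 2) = d - 1 := by omega
      rwa [h3] at h2
    have h2 : (lf m1 * S).IsHomogeneous (d - 1) := by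
      have h2 := (lf_hom m1).mul hS
      have h3 : 1 + (d - 2) = d - 1 := by omega
      rwa [h3] at h2
    have h3 := hprod m1 hm1 _ h1
    have h4 := hprod m hmx _ h2
    have h5 : lf m1 * (lf m * S) = lf m * (lf m1 * S) := by ring
    rw [h5, h4, hmy, zero_mul] at h3
    exact (mul_eq_zero.1 h3.symm).resolve_left hm1y
  · have h1 := hprod m1 hm1 _ (h.hom.pderiv (i := p))
    have h2 : vec D x (lf m1 * pderiv p F) = ∑ q, m1 q • wv F D x (p, q) := by
      have h3 : ∑ q, m1 q • wv F D x (p, q) =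
          (∑ q, m1 q * x q) • (Pi.single p 1 : Fin (3 + 1) → L) +
            ∑ q, m1 q • vec D x (X q * pderiv p F) := by
        unfold wv
        simp only [smul_add, Finset.sum_add_distrib, Finset.sum_smul, smul_smul]
      rw [h3, hm1, zero_smul, zero_add, lf_apply, Finset.sum_mul, map_sum]
      refine Finset.sum_congr rfl fun q _ => ?_
      rw [smul_mul_assoc, map_smul]
    rw [h2, map_sum, Finset.sum_eq_zero fun q _ => by rw [map_smul, hw, smul_zero]] at h1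
    exact (mul_eq_zero.1 h1.symm).resolve_left hm1y
  · obtain ⟨g, hg⟩ : ∃ g : {J : Fin (3 + 1) →₀ ℕ // J.degree = d - 1} → L, ∀ J, g J = c J.1 :=
      ⟨_, fun _ => rfl⟩
    have hg0 : g ≠ 0 := by
      intro h0
      apply hcJ0
      have h1 := congrFun h0 ⟨J0, hJ0⟩
      rw [hg] at h1
      exact h1
    have hgc : (fun J : {J : Fin (3 + 1) →₀ ℕ // J.degree = d - 1} => c J.1) = g :=
      funext fun J => (hg J).symm
    rw [hgc]
    have hΘ0 : (fun q : (Fin (3 + 1) × Fin (3 + 1)) × {J : Fin (3 + 1) →₀ ℕ //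
        J.degree = d - 1} => pl x y q.1 * g q.2) ≠ 0 := by
      intro h0
      have h1 : pl x y (a0, b0) * g ⟨J0, hJ0⟩ = 0 := congrFun h0 ((a0, b0), ⟨J0, hJ0⟩)
      rw [hg] at h1
      exact mul_ne_zero hpl hcJ0 h1
    have h1 := h.deg_fam hΘ0 fun P j => by
      have h2 : pl x y j.1 * g j.2 = Phi D d δ x i0 j.1.1 j.1.2 j.2.1 := by
        rw [Phi_eq h.ne, hg, hc]
        simp only [pl]
        rw [hprop _ j.2.2 j.1.2, hprop _ j.2.2 j.1.1]
        ring
      rw [h2]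
      exact h.ge_Phi P _ _ j.2.2
    rw [fht_prod hpl0 hg0] at h1
    linarith

end

end Pool.Agent.H435.VG
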