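import Pool.Agent.H435.VG.Rank2

/-!
The height of a point of a generic surface, and the heights of the line and the linear form.
-/

set_option autoImplicit false

open MvPolynomial FF Pool.Agent.W603.LV Pool.Agent.W603.PV Pool.Agent.TH145.GH
open Pool.Agent.Y735 (lf lf_apply lf_hom eval_lf pm lf_pm sum_pm eval_pm pl po po_le exists_po fht
  fht_nonneg sum_two po_finite)
open Pool.Agent.W602.GT

namespace Pool.Agent.H435.VG

/-- The numerical part. -/
theorem num_half {d N r r1 i δ h p c S : ℤ} (hd : 5 ≤ d) (hN : N + r = d) (hr : 1 ≤ r)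
    (hN1 : 1 ≤ N) (hr1 : r1 ≤ 4) (hi1 : 1 ≤ i) (hid : i ≤ d - 1) (hri : r1 = 4 → 2 ≤ i)
    (hp : 0 ≤ p) (hh : 0 ≤ h) (hc : 0 ≤ c) (h1 : r * δ + S ≤ d * h) (h2 : N * p ≤ S)
    (h3 : r1 * p + (N - r1) * (h - p) ≤ S) (h4 : i * (h - p) + (d - 1 - i) * p ≤ c) :
    δ ≤ 2 * (h + c) := by
  have hNd : N = d - r := by omega
  subst hNd
  rcases le_or_gt (2 * p) h with hhp | hhp
  · rcases le_or_gt r1 3 with h5 | h5
    · have e0 := mul_nonneg (sub_nonneg.2 hi1) (sub_nonneg.2 hhp)
      have e1 : h + (d - 3) * p ≤ c := by nlinarith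
      have e2 : r * δ ≤ (r + 3) * h + (d - r - 6) * p := by
        nlinarith [mul_nonneg (sub_nonneg.2 h5) (sub_nonneg.2 hhp)]
      by_contra hcon
      push Not at hcon
      have e3 : 4 * h + 2 * (d - 3) * p + 1 ≤ δ := by linarith
      have e4 := mul_le_mul_of_nonneg_left e3 (by linarith : (0 : ℤ) ≤ r)
      have e5 : 0 ≤ (3 * r - 3) * h := mul_nonneg (by linarith) hh
      have e6 : 0 ≤ (2 * r * d - d - 5 * r + 6) * p := mul_nonneg (by nlinarith) hp
      nlinarith
    · have h6 : r1 = 4 := by omega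
      have h7 := hri h6
      subst h6
      have e0 := mul_nonneg (sub_nonneg.2 h7) (sub_nonneg.2 hhp)
      have e1 : 2 * h + (d - 5) * p ≤ c := by nlinarith
      have e2 : r * δ ≤ (r + 4) * h + (d - r - 8) * p := by
        nlinarith
      by_contra hcon
      push Not at hcon
      have e3 : 6 * h + 2 * (d - 5) * p + 1 ≤ δ := by linarith
      have e4 := mul_le_mul_of_nonneg_left e3 (by linarith : (0 : ℤ) ≤ r)
      have e5 : 0 ≤ (5 * r - 4) * h := mul_nonneg (by linarith) hh
      have e6 : 0 ≤ (2 * r * d - d - 9 * r + 8) * p := mul_nonneg (by nlinarith) hp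
      nlinarith
  · by_contra hcon
    push Not at hcon
    have e0 : 2 * h + 1 ≤ δ := by linarith
    have e1 : (d - 1) * (h - p) ≤ c := by
      nlinarith [mul_nonneg (sub_nonneg.2 hid) (by linarith : (0 : ℤ) ≤ 2 * p - h)]
    have e2 : r * (2 * h + 1) + (d - r) * p ≤ d * h := by
      have := mul_le_mul_of_nonneg_left e0 (by linarith : (0 : ℤ) ≤ r)
      linarith
    have e3 : p < h := by
      by_contra hcon2
      push Not at hcon2
      have := mul_le_mul_of_nonneg_left hcon2 (by linarith : (0 : ℤ) ≤ d - r)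
      nlinarith [mul_nonneg (by linarith : (0 : ℤ) ≤ r) hh]
    have e4 : δ + (d - 1) * p ≤ d * h := by
      nlinarith [mul_nonneg (by linarith : (0 : ℤ) ≤ r - 1) (by linarith : (0 : ℤ) ≤ δ - p)]
    nlinarith

section

variable {L : Type} [Field L] {F : MvPolynomial (Fin (3 + 1)) L} {d : ℕ} {x y : Fin (3 + 1) → L}

theorem fac_hom (hF : F.IsHomogeneous d) {N r : ℕ} (hN : N + r = d) {c0 : L} (s : Fin N → L)
    (hfac : ∀ σ : L, eval (Pt x y σ) F = c0 * ∏ i, (σ - s i)) (σ τ : L) (hτ : τ ≠ 0) :
    eval (fun l => σ * x l + τ * y l) F = τ ^ r * (c0 * ∏ i, (σ - τ * s i)) := by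
  have h1 : (fun l => σ * x l + τ * y l) = τ • Pt x y (σ / τ) := by
    funext l
    simp only [Pt, Pi.smul_apply, smul_eq_mul]
    field_simp
  rw [h1, eval_smul_hom hF, hfac, ← hN, pow_add]
  have h2 : ∏ i, (σ - τ * s i) = τ ^ N * ∏ i, (σ / τ - s i) := by
    have h3 : τ ^ N = ∏ _i : Fin N, τ := by
      rw [Finset.prod_const, Finset.card_univ, Fintype.card_fin]
    rw [h3, ← Finset.prod_mul_distrib]
    refine Finset.prod_congr rfl fun i _ => ?_
    field_simp
  rw [h2]
  ring

/-- The form on the line through a root and another point of the line. -/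
theorem ln_fac [CharZero L] (hF : F.IsHomogeneous d) {N r : ℕ} (hN : N + r = d) {c0 : L}
    (s : Fin N → L) (hfac : ∀ σ : L, eval (Pt x y σ) F = c0 * ∏ i, (σ - s i)) (s0 α β : L) :
    lnp F (Pt x y s0) (α • Pt x y s0 + β • x) = Polynomial.C c0 *
      (Polynomial.C α * Polynomial.X + 1) ^ r * ∏ i, (Polynomial.C β * Polynomial.X +
        Polynomial.C (s0 - s i) * (Polynomial.C α * Polynomial.X + 1)) := by
  refine Polynomial.eq_of_infinite_eval_eq _ _ ?_
  have hfin : {t : L | α * t + 1 = 0}.Finite := by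
    by_cases hα : α = 0
    · rw [hα]
      simp
    · refine (Set.finite_singleton (-α⁻¹)).subset fun t ht => ?_
      have ht' : α * t + 1 = 0 := ht
      rw [Set.mem_singleton_iff]
      field_simp
      linear_combination ht'
  refine hfin.infinite_compl.mono fun t ht => ?_
  have ht' : α * t + 1 ≠ 0 := ht
  change Polynomial.eval t _ = Polynomial.eval t _
  rw [lnp_eval, Polynomial.eval_mul, Polynomial.eval_mul, Polynomial.eval_pow,
    Polynomial.eval_prod]
  simp only [Polynomial.eval_add, Polynomial.eval_mul, Polynomial.eval_C, Polynomial.eval_X,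
    Polynomial.eval_one]
  have h1 : (fun l => Pt x y s0 l + t * (α • Pt x y s0 + β • x) l) =
      fun l => ((α * t + 1) * s0 + β * t) * x l + (α * t + 1) * y l := by
    funext l
    simp only [Pt, Pi.add_apply, Pi.smul_apply, smul_eq_mul]
    ring
  rw [h1, fac_hom hF hN s hfac _ _ ht']
  have h2 : ∏ i, ((α * t + 1) * s0 + β * t - (α * t + 1) * s i) =
      ∏ i, (β * t + (s0 - s i) * (α * t + 1)) :=
    Finset.prod_congr rfl fun i _ => by ring
  rw [h2]
  ring

open Classical in
/-- The contact at a root. -/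
theorem ln_contact [CharZero L] (hF : F.IsHomogeneous d) {N r : ℕ} (hN : N + r = d) {c0 : L}
    (s : Fin N → L) (hfac : ∀ σ : L, eval (Pt x y σ) F = c0 * ∏ i, (σ - s i)) (s0 α β : L)
    {j : ℕ} (hj : j < (Finset.univ.filter fun i => s i = s0).card) :
    (lnp F (Pt x y s0) (α • Pt x y s0 + β • x)).coeff j = 0 := by
  have h1 : Polynomial.X ^ (Finset.univ.filter fun i => s i = s0).card ∣
      lnp F (Pt x y s0) (α • Pt x y s0 + β • x) := by
    rw [ln_fac hF hN s hfac, ← Finset.prod_filter_mul_prod_filter_not Finset.univ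
      (fun i => s i = s0)]
    refine Dvd.dvd.mul_left (Dvd.dvd.mul_right ?_ _) _
    have h2 : ∏ i ∈ Finset.univ.filter (fun i => s i = s0), (Polynomial.C β * Polynomial.X +
        Polynomial.C (s0 - s i) * (Polynomial.C α * Polynomial.X + 1)) =
        ∏ _i ∈ Finset.univ.filter (fun i => s i = s0), (Polynomial.C β * Polynomial.X) :=
      Finset.prod_congr rfl fun i hi => by
        rw [(Finset.mem_filter.1 hi).2, sub_self, Polynomial.C_0, zero_mul, add_zero]
    rw [h2, Finset.prod_const, mul_pow]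
    exact Dvd.intro_left _ rfl
  exact (Polynomial.X_pow_dvd_iff.1 h1) j hj

theorem coeff_one_lnp (G : MvPolynomial (Fin (3 + 1)) L) (u w : Fin (3 + 1) → L) :
    (lnp G u w).coeff 1 = dF G u w := by
  have h1 : (lnp G u w).coeff 1 = (Polynomial.derivative (lnp G u w)).coeff 0 := by
    rw [Polynomial.coeff_derivative]
    simp
  rw [h1, lnp_derivative, Polynomial.coeff_zero_eq_eval_zero, dln_eval]
  congr 1
  · funext l
    rw [zero_mul, add_zero]
  · funext l
    rw [zero_mul, add_zero]

end

section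

variable {k L : Type} [Field k] [Field L] [Algebra k L] [IsAlgClosed k] [CharZero k] [IsFF k L]
  {F : MvPolynomial (Fin (3 + 1)) L} {d : ℕ} {x y : Fin (3 + 1) → L}
  {c : (Fin (3 + 1) →₀ ℕ) → L} {D : (Fin (3 + 1) →₀ ℕ) → Derivation ℤ L L}

open Classical in
/-- The height of the point is at most twice the heights of the line and of the linear form. -/
theorem half (hd : 5 ≤ d) (hF : F.IsHomogeneous d) (hD : Dual F d D)
    (hFk : ∀ u, ∃ c : k, F.coeff u = algebraMap k L c) (hx : eval x F = 0)
    {j0 l0 : Fin (3 + 1)} (hj0 : x j0 = 1) (hl0 : Transcendental k (x l0))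
    (h : LineD F d x y c) {N r : ℕ} (hN : N + r = d) (hr : 1 ≤ r) {c0 : L} (hc0 : c0 ≠ 0)
    (s : Fin N → L) (hfac : ∀ σ : L, eval (Pt x y σ) F = c0 * ∏ i, (σ - s i)) :
    pht k x ≤ 2 * (fht k (pl x y) +
      fht k (fun J : {J : Fin (3 + 1) →₀ ℕ // J.degree = d - 1} => c J.1)) := by
  have hLz : CharZero L := charZero_of_injective_algebraMap (algebraMap k L).injective
  have hfd := finite_deg 3 (d - 1)
  obtain ⟨g, hg⟩ : ∃ g : {J : Fin (3 + 1) →₀ ℕ // J.degree = d - 1} → L,
      g = fun J => c J.1 := ⟨_, rfl⟩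
  have hg0 : g ≠ 0 := by
    obtain ⟨J0, hJ0, hcJ0⟩ := h.ex
    intro h0
    apply hcJ0
    have h1 := congrFun h0 ⟨J0, hJ0⟩
    rw [hg] at h1
    exact h1
  have hh0 : 0 ≤ fht k (pl x y) := fht_nonneg h.pl0
  have hc00 : 0 ≤ fht k g := fht_nonneg hg0
  rw [← hg]
  have hroots := roots_ht hF hFk h.pl0 hN hc0 s hfac
  rcases Nat.eq_zero_or_pos N with hN0 | hN0
  · subst hN0
    rw [zero_add] at hN
    subst hN
    rw [Finset.univ_eq_empty, Finset.sum_empty, add_zero] at hroots
    have hr0 : (0 : ℤ) < r := by exact_mod_cast hr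
    have h1 := le_of_mul_le_mul_left hroots hr0
    linarith
  -- the root of smallest height
  have hne : (Finset.univ : Finset (Fin N)).Nonempty := ⟨⟨0, hN0⟩, Finset.mem_univ _⟩
  obtain ⟨i0, -, hi0⟩ := Finset.exists_min_image Finset.univ (fun i => pht k (Pt x y (s i))) hne
  obtain ⟨s0, hs0⟩ : ∃ s0, s0 = s i0 := ⟨_, rfl⟩
  obtain ⟨u, hu⟩ : ∃ u, u = Pt x y s0 := ⟨_, rfl⟩
  obtain ⟨r1, hr1⟩ : ∃ r1, r1 = (Finset.univ.filter fun i => s i = s0).card := ⟨_, rfl⟩
  have hcon : ∀ (α β : L) (j : ℕ), j < r1 → (lnp F u (α • u + β • x)).coeff j = 0 := by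
    intro α β j hj
    rw [hu]
    exact ln_contact hF hN s hfac s0 α β (by rw [← hr1]; exact hj)
  have hpu : pl u x ≠ 0 := by
    obtain ⟨q, hq⟩ := Function.ne_iff.1 h.pl0
    intro h0
    apply hq
    have h1 : pl u x q = - pl x y q := by
      rw [hu]
      simp only [pl, Pt]
      ring
    rw [h0] at h1
    have h2 : (0 : L) = - pl x y q := h1
    exact neg_eq_zero.1 h2.symm
  have hu0 : u ≠ 0 := by rw [hu]; exact Pt_ne h.pl0 s0
  -- the derivation
  obtain ⟨δ, hδ⟩ := exists_der (k := k) (K := L)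
  have hE : ∀ J, δ.restrictScalars ℤ (F.coeff J) = 0 := fun J => by
    obtain ⟨c, hc⟩ := hFk J
    rw [hc]
    exact δ.map_algebraMap c
  have hxl := der_ne_zero hδ hl0
  have hstab : ∀ α β γ : L, (fun l => δ (u l)) = α • u → (fun l => δ (x l)) = β • u + γ • x →
      False := by
    intro α β γ h1 h2
    have h3 : β = 0 := stable hF hE hx (u := u) (no_line hF hD (by omega) (by
      intro h0
      apply hpu
      funext q
      have h4 := congrFun h0 q
      simp only [pl, Pi.zero_apply] at h4 ⊢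
      linear_combination -h4)) h1 h2
    rw [h3, zero_smul, zero_add] at h2
    have h4 : δ (x j0) = γ * x j0 := congrFun h2 j0
    rw [hj0, δ.map_one_eq_zero, mul_one] at h4
    have h5 : δ (x l0) = γ * x l0 := congrFun h2 l0
    rw [← h4, zero_mul] at h5
    exact hxl h5
  have hr1N : r1 ≤ N := by
    rw [hr1]
    exact (Finset.card_filter_le _ _).trans (by rw [Finset.card_univ, Fintype.card_fin])
  have hr1p : 1 ≤ r1 := by
    rw [hr1]
    exact Finset.card_pos.2 ⟨i0, Finset.mem_filter.2 ⟨Finset.mem_univ _, hs0.symm⟩⟩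
  have hr14 : r1 ≤ 4 := by
    by_contra hc5
    push Not at hc5
    obtain ⟨⟨α, hα⟩, β, γ, hβγ⟩ := rank1 hF hD (by omega) hpu
      (fun j hj => by
        have h1 := hcon 0 1 j (by omega)
        rwa [zero_smul, one_smul, zero_add] at h1)
      (a := fun l => δ (u l)) (b := fun l => δ (x l)) fun j hj => by
        have h1 := hcon 0 1 j (by omega)
        rw [zero_smul, one_smul, zero_add] at h1
        have h2 := dln_of_der (F := F) (E := δ.restrictScalars ℤ) (G' := 0) (fun J => by
          rw [hE, coeff_zero]) h1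
        have h4 : lnp (0 : MvPolynomial (Fin (3 + 1)) L) u x = 0 := by
          unfold lnp
          rw [map_zero]
        rw [h4, Polynomial.coeff_zero, neg_zero] at h2
        exact h2
    exact hstab α β γ hα hβγ
  -- the order of the linear form
  obtain ⟨A, hA1, hA0⟩ := exists_aA h.pl0 s0
  obtain ⟨i, b, hid, hb, hS⟩ := h.exists_i s0 hA1 hA0
  have hi1 : 1 ≤ i := by
    by_contra hi
    have hi' : i = 0 := by omega
    subst hi'
    obtain ⟨p, hp⟩ := smooth hF hD (by omega) hu0
    apply hp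
    rw [hu]
    exact h.zero_case hF s0 hb hS p
  have hri : r1 = 4 → 2 ≤ i := by
    intro h4
    by_contra hi
    have hi' : i = 1 := by omega
    subst hi'
    obtain ⟨α, β, hβ, hαβ⟩ := h.one_case (by omega) hF s0 hA1 hA0 hb hS
    rw [← hu] at hαβ
    obtain ⟨z, hz⟩ : ∃ z, z = α • u + β • x := ⟨_, rfl⟩
    have hpz : pl u z ≠ 0 := by
      intro h0
      apply hpu
      funext q
      have h5 := congrFun h0 q
      rw [hz] at h5
      simp only [pl, Pi.zero_apply, Pi.add_apply, Pi.smul_apply, smul_eq_mul] at h5 ⊢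
      apply (mul_eq_zero.1 (_ : β * (u q.1 * x q.2 - u q.2 * x q.1) = 0)).resolve_left hβ
      linear_combination h5
    have hq0 : (lnp F u z).coeff 0 = 0 := by rw [hz]; exact hcon α β 0 (by omega)
    have hq3 : (lnp F u z).coeff 3 = 0 := by rw [hz]; exact hcon α β 3 (by omega)
    have hq1 : ∀ p, (lnp (pderiv p F) u z).coeff 1 = 0 := fun p => by
      rw [coeff_one_lnp, hz]
      exact hαβ p
    have hl0 : lnp (0 : MvPolynomial (Fin (3 + 1)) L) u z = 0 := by
      unfold lnp
      rw [map_zero]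
    have hdz : ∀ (G : MvPolynomial (Fin (3 + 1)) L) (j : ℕ),
        (∀ J, δ.restrictScalars ℤ (G.coeff J) = 0) → (lnp G u z).coeff j = 0 →
        (dln G u z (fun l => δ (u l), fun l => δ (z l))).coeff j = 0 := by
      intro G j hG hj
      have h2 := dln_of_der (F := G) (E := δ.restrictScalars ℤ) (G' := 0) (fun J => by
        rw [hG, coeff_zero]) hj
      rw [hl0, Polynomial.coeff_zero, neg_zero] at h2
      exact h2
    obtain ⟨⟨α', hα'⟩, γ, hγ⟩ := rank2 hF hD (by omega) hpz hq0 hq1 hq3
      (a := fun l => δ (u l)) (b := fun l => δ (z l)) (hdz F 0 hE hq0)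
      (fun p => hdz _ 1 (fun J => by
        rw [coeff_pderiv, Derivation.leibniz, hE, smul_zero, add_zero]
        have h6 : (δ.restrictScalars ℤ) ((J p : L) + 1) = 0 := by
          rw [map_add, Derivation.map_natCast, Derivation.map_one_eq_zero, add_zero]
        rw [h6, smul_zero]) (hq1 p))
      (hdz F 3 hE hq3)
    -- the derivative of the point
    have h7 : (fun l => δ (x l)) = ((γ * α - δ α - α * α') / β) • u +
        ((γ * β - δ β) / β) • x := by
      funext l
      have h8 : δ (z l) = γ * z l := congrFun hγ l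
      have h9 : δ (u l) = α' * u l := congrFun hα' l
      have h10 : z l = α * u l + β * x l := by rw [hz]; rfl
      rw [h10, map_add, δ.leibniz, δ.leibniz, h9] at h8
      simp only [smul_eq_mul] at h8
      simp only [Pi.add_apply, Pi.smul_apply, smul_eq_mul]
      field_simp
      linear_combination h8
    exact hstab _ _ _ hα' h7
  have hht := h.ht_ge (k := k) s0 hA1 hA0 hid hb hS
  rw [← hg, ← hu] at hht
  have hp0 : 0 ≤ pht k u := Pool.Agent.Y741.pht_nonneg hu0
  have hmin : ∀ i, pht k u ≤ pht k (Pt x y (s i)) := fun i => by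
    have := hi0 i (Finset.mem_univ i)
    rw [hu, hs0]
    exact this
  have hS1 : (N : ℤ) * pht k u ≤ ∑ i, pht k (Pt x y (s i)) := by
    have h1 := Finset.sum_le_sum fun i (_ : i ∈ (Finset.univ : Finset (Fin N))) => hmin i
    rw [Finset.sum_const, Finset.card_univ, Fintype.card_fin, nsmul_eq_mul] at h1
    exact h1
  have hS2 : (r1 : ℤ) * pht k u + ((N : ℤ) - r1) * (fht k (pl x y) - pht k u) ≤
      ∑ i, pht k (Pt x y (s i)) := by
    rw [← Finset.sum_filter_add_sum_filter_not Finset.univ (fun i => s i = s0)]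
    refine add_le_add ?_ ?_
    · have h1 := Finset.sum_le_sum fun i (_ : i ∈ Finset.univ.filter fun i => s i = s0) => hmin i
      rw [Finset.sum_const, nsmul_eq_mul, ← hr1] at h1
      exact h1
    · have h1 := Finset.sum_le_sum fun i (hi : i ∈ Finset.univ.filter fun i => ¬ s i = s0) => by
        have h2 := two_pts (k := k) h.pl0 (Finset.mem_filter.1 hi).2
        rw [← hu] at h2
        exact (by linarith : fht k (pl x y) - pht k u ≤ pht k (Pt x y (s i)))
      rw [Finset.sum_const, nsmul_eq_mul] at h1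
      have h2 : ((Finset.univ.filter fun i => ¬ s i = s0).card : ℤ) = N - r1 := by
        have h3 := Finset.card_filter_add_card_filter_not (s := (Finset.univ : Finset (Fin N)))
          (fun i => s i = s0)
        rw [Finset.card_univ, Fintype.card_fin, ← hr1] at h3
        omega
      rw [h2] at h1
      exact h1
  refine num_half (d := d) (N := N) (r := r) (r1 := r1) (i := i) (p := pht k u)
    (S := ∑ i, pht k (Pt x y (s i))) (by exact_mod_cast hd) (by exact_mod_cast hN)
    (by exact_mod_cast hr) (by exact_mod_cast hN0) (by exact_mod_cast hr14)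
    (by exact_mod_cast hi1) (by omega) (fun h5 => by
      have h6 : r1 = 4 := by exact_mod_cast h5
      exact_mod_cast hri h6) hp0 hh0 hc00 hroots hS1 hS2 ?_
  have h1 : ((d - 1 - i : ℕ) : ℤ) = d - 1 - i := by omega
  rw [h1] at hht
  exact hht

end

end Pool.Agent.H435.VG
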