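import Pool.Agent.H435.VG.Ext

/-!
Heights of the points on a line, and of the roots of a form on it.
-/

set_option autoImplicit false

open MvPolynomial FF Pool.Agent.W603.LV Pool.Agent.W603.PV Pool.Agent.TH145.GH
open Pool.Agent.Y735 (lf lf_apply lf_hom eval_lf pm lf_pm sum_pm eval_pm pl po po_le exists_po fht
  fht_nonneg sum_two po_finite)
open Pool.Agent.W602.GT

namespace Pool.Agent.H435.VG

/-- The points of a line. -/
def Pt {L : Type} [Field L] (x y : Fin (3 + 1) → L) (s : L) : Fin (3 + 1) → L :=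
  fun l => s * x l + y l

section

variable {L : Type} [Field L] {x y : Fin (3 + 1) → L}

theorem pl_Pt (s : L) (q : Fin (3 + 1) × Fin (3 + 1)) : pl x (Pt x y s) q = pl x y q := by
  simp only [pl, Pt]
  ring

theorem pl_Pt2 (s s' : L) (q : Fin (3 + 1) × Fin (3 + 1)) :
    pl (Pt x y s) (Pt x y s') q = (s - s') * pl x y q := by
  simp only [pl, Pt]
  ring

theorem Pt_ne (h : pl x y ≠ 0) (s : L) : Pt x y s ≠ 0 := by
  intro h0
  apply h
  funext q
  rw [← pl_Pt s, h0]
  simp [pl]

theorem x_ne (h : pl x y ≠ 0) : x ≠ 0 := by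
  rintro rfl
  apply h
  funext q
  simp [pl]

end

section

variable {k L : Type} [Field k] [Field L] [Algebra k L] [IsAlgClosed k] [CharZero k] [IsFF k L]

/-- The sum of a function with finite support that is bounded by the orders of a function. -/
theorem fs_le {A : Place k L → ℤ} (hA : {P | A P ≠ 0}.Finite) {g : L}
    (h : ∀ P : Place k L, A P ≤ P.ord g) : ∑ᶠ P, A P ≤ 0 := by
  classical
  obtain ⟨S, hS⟩ := exists_supp (k := k) (Finset.univ : Finset Unit) (fun _ => g)
  obtain ⟨V, hV⟩ : ∃ V : Finset (Place k L), V = S ∪ hA.toFinset := ⟨_, rfl⟩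
  have h1 : ∑ P ∈ V, P.ord g = 0 := sum_ord_finset _ _ fun P hP => by
    rw [hV]; exact Finset.mem_union_left _ (hS () (Finset.mem_univ _) P hP)
  rw [finsum_eq_sum_of_support_subset (s := V)]
  · rw [← h1]
    exact Finset.sum_le_sum fun P _ => h P
  · intro P hP
    rw [hV]
    exact Finset.mem_union_right _ (hA.mem_toFinset.2 hP)

omit [IsAlgClosed k] [CharZero k] [IsFF k L] in
theorem fin_mul {A : Place k L → ℤ} (hA : {P | A P ≠ 0}.Finite) (a : ℤ) :
    {P | a * A P ≠ 0}.Finite :=
  hA.subset fun _ hP => right_ne_zero_of_mul hP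

omit [IsAlgClosed k] [CharZero k] [IsFF k L] in
theorem fin_add {A B : Place k L → ℤ} (hA : {P | A P ≠ 0}.Finite) (hB : {P | B P ≠ 0}.Finite) :
    {P | A P + B P ≠ 0}.Finite := by
  refine (hA.union hB).subset fun P hP => ?_
  by_contra hcon
  rw [Set.mem_union, not_or] at hcon
  apply hP
  have h1 : ¬ (A P ≠ 0) := hcon.1
  have h2 : ¬ (B P ≠ 0) := hcon.2
  push Not at h1 h2
  rw [h1, h2, add_zero]

omit [IsAlgClosed k] [CharZero k] [IsFF k L] in
theorem fin_sum {ι : Type} (s : Finset ι) {A : ι → Place k L → ℤ}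
    (hA : ∀ i, {P | A i P ≠ 0}.Finite) : {P | ∑ i ∈ s, A i P ≠ 0}.Finite := by
  classical
  induction s using Finset.induction_on with
  | empty => simp
  | insert i s hi ih =>
    refine (fin_add (hA i) ih).subset fun P hP => ?_
    have hP' : ∑ i ∈ insert i s, A i P ≠ 0 := hP
    rw [Finset.sum_insert hi] at hP'
    exact hP'

/-- The sum of the heights of two points on a line. -/
theorem two_pts {x y : Fin (3 + 1) → L} (h : pl x y ≠ 0) {s s' : L} (hs : s ≠ s') :
    fht k (pl x y) ≤ pht k (Pt x y s) + pht k (Pt x y s') := by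
  have hs0 : s - s' ≠ 0 := sub_ne_zero.2 hs
  have f1 := po_finite (k := k) (Pt_ne h s)
  have f2 := po_finite (k := k) (Pt_ne h s')
  have f3 := po_finite (k := k) h
  have h1 := fs_le (k := k) (A := fun P => po P (Pt x y s) + po P (Pt x y s') +
    (-1) * po P (pl x y)) (fin_add (fin_add f1 f2) (fin_mul f3 (-1))) (g := s - s') fun P => by
      obtain ⟨q, hq, hqP⟩ := exists_po P h
      have h2 : Ge P (po P (Pt x y s) + po P (Pt x y s')) (pl (Pt x y s) (Pt x y s') q) := by
        unfold pl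
        refine Ge.sub ((ge_po P _ _).mul (ge_po P _ _)) ?_
        rw [add_comm (po P (Pt x y s)), mul_comm]
        rw [mul_comm]
        have := (ge_po P (Pt x y s) q.2).mul (ge_po P (Pt x y s') q.1)
        rwa [add_comm] at this
      rw [pl_Pt2] at h2
      have h3 := h2.resolve_left (mul_ne_zero hs0 hq)
      rw [P.ord_mul hs0 hq, hqP] at h3
      linarith
  rw [finsum_add_distrib (fin_add f1 f2) (fin_mul f3 (-1)), finsum_add_distrib f1 f2,
    ← mul_finsum _ (-1)] at h1
  change ∑ᶠ P : Place k L, po P (Pt x y s) + ∑ᶠ P : Place k L, po P (Pt x y s') +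
    (-1) * ∑ᶠ P : Place k L, po P (pl x y) ≤ 0 at h1
  rw [← Pool.Agent.Y735.fht_fin, ← Pool.Agent.Y735.fht_fin]
  unfold fht
  linarith

omit [IsAlgClosed k] [CharZero k] [IsFF k L] in
/-- At most one constant combination of two coordinates has a large order. -/
theorem bad_subs (P : Place k L) {x y z : Fin (3 + 1) → L} {q : Fin (3 + 1) × Fin (3 + 1)}
    (hq : pl x y q ≠ 0) (hqP : P.ord (pl x y q) = po P (pl x y)) (hz : z ≠ 0)
    (hzl : ∀ i, z i * pl x y q = z q.1 * pl x y (i, q.2) + z q.2 * pl x y (q.1, i)) :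
    {u : k | Ge P (po P z + 1) (z q.1 - algebraMap k L u * z q.2)}.Subsingleton := by
  intro u hu v hv
  by_contra hne
  have hu' : Ge P (po P z + 1) (z q.1 - algebraMap k L u * z q.2) := hu
  have hv' : Ge P (po P z + 1) (z q.1 - algebraMap k L v * z q.2) := hv
  have hd : algebraMap k L v - algebraMap k L u ≠ 0 := by
    rw [← map_sub]
    exact (_root_.map_ne_zero _).2 (sub_ne_zero.2 fun h => hne h.symm)
  have h1 : Ge P (po P z + 1) (z q.2) := by
    have h2 : Ge P (po P z + 1) ((algebraMap k L v - algebraMap k L u) * z q.2) := by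
      have h3 := hu'.sub hv'
      have h4 : z q.1 - algebraMap k L u * z q.2 - (z q.1 - algebraMap k L v * z q.2) =
          (algebraMap k L v - algebraMap k L u) * z q.2 := by ring
      rwa [h4] at h3
    refine Ge.of_mul' (m := 0) hd ?_ (by rwa [add_zero])
    rw [← map_sub]
    exact P.ord_const (sub_ne_zero.2 fun h => hne h.symm)
  have h2 : Ge P (po P z + 1) (z q.1) := by
    have h3 := hu'.add (((Ge.const (P := P) u).mul h1).mono (by omega :
      po P z + 1 ≤ 0 + (po P z + 1)))
    rwa [sub_add_cancel] at h3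
  obtain ⟨i, hi, hiP⟩ := exists_po P hz
  have h3 : Ge P (po P z + 1 + po P (pl x y)) (z i * pl x y q) := by
    rw [hzl]
    exact (h2.mul (ge_po P _ _)).add (h1.mul (ge_po P _ _))
  have h4 := h3.resolve_left (mul_ne_zero hi hq)
  rw [P.ord_mul hi hq, hiP, hqP] at h4
  omega

/-- The heights of the roots of a form on a line. -/
theorem roots_ht {F : MvPolynomial (Fin (3 + 1)) L} {d : ℕ} (hF : F.IsHomogeneous d)
    (hFk : ∀ u, ∃ c : k, F.coeff u = algebraMap k L c) {x y : Fin (3 + 1) → L} (h : pl x y ≠ 0)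
    {N r : ℕ} (hN : N + r = d) {c0 : L} (hc0 : c0 ≠ 0) (s : Fin N → L)
    (hfac : ∀ σ : L, eval (Pt x y σ) F = c0 * ∏ i, (σ - s i)) :
    r * pht k x + ∑ i, pht k (Pt x y (s i)) ≤ d * fht k (pl x y) := by
  classical
  have hx0 := x_ne h
  have f1 := po_finite (k := k) hx0
  have f2 := fun i => po_finite (k := k) (Pt_ne h (s i))
  have f3 := po_finite (k := k) h
  have hfac2 : ∀ σ τ : L, τ ≠ 0 → eval (fun l => σ * x l + τ * y l) F =
      τ ^ r * (c0 * ∏ i, (σ - τ * s i)) := by
    intro σ τ hτ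
    have h1 : (fun l => σ * x l + τ * y l) = τ • Pt x y (σ / τ) := by
      funext l
      simp only [Pt, Pi.smul_apply, smul_eq_mul]
      field_simp
    rw [h1, eval_smul_hom hF, hfac, ← hN, pow_add]
    have h2 : ∏ i, (σ - τ * s i) = τ ^ N * ∏ i, (σ / τ - s i) := by
      have h3 : τ ^ N = ∏ _i : Fin N, τ := by
        rw [Finset.prod_const, Finset.card_univ, Fintype.card_fin]
      rw [h3, ← Finset.prod_mul_distrib]
      refine Finset.prod_congr rfl fun i _ => ?_
      field_simp
    rw [h2]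
    ring
  have h1 := fs_le (k := k) (A := fun P => ((d : ℤ) * po P (pl x y) + (-r : ℤ) * po P x) +
    (-1) * ∑ i, po P (Pt x y (s i)))
    (fin_add (fin_add (fin_mul f3 _) (fin_mul f1 _)) (fin_mul (fin_sum _ f2) (-1)))
    (g := c0) fun P => by
      obtain ⟨q, hq, hqP⟩ := exists_po P h
      -- a general constant
      have hb1 := bad_subs P hq hqP hx0 fun i => by simp only [pl]; ring
      have hb2 := fun i => bad_subs P hq hqP (Pt_ne h (s i)) fun j => by
        simp only [pl, Pt]; ring
      have hfin : ({u : k | Ge P (po P x + 1) (x q.1 - algebraMap k L u * x q.2)} ∪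
          ⋃ i, {u : k | Ge P (po P (Pt x y (s i)) + 1)
            (Pt x y (s i) q.1 - algebraMap k L u * Pt x y (s i) q.2)}).Finite :=
        hb1.finite.union (Set.finite_iUnion fun i => (hb2 i).finite)
      obtain ⟨u, hu⟩ := hfin.exists_notMem
      rw [Set.mem_union, not_or, Set.mem_iUnion, not_exists] at hu
      obtain ⟨hu1, hu2⟩ := hu
      have hgd : ∀ z : Fin (3 + 1) → L, ¬ Ge P (po P z + 1) (z q.1 - algebraMap k L u * z q.2) →
          z q.1 - algebraMap k L u * z q.2 ≠ 0 ∧
          P.ord (z q.1 - algebraMap k L u * z q.2) ≤ po P z := by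
        intro z hz
        unfold Ge at hz
        push Not at hz
        exact ⟨hz.1, by omega⟩
      obtain ⟨a1, a2⟩ := hgd x hu1
      have b12 := fun i => hgd (Pt x y (s i)) (hu2 i)
      obtain ⟨Δ, hΔ⟩ : ∃ Δ, Δ = pl x y q := ⟨_, rfl⟩
      have hΔ0 : Δ ≠ 0 := by rw [hΔ]; exact hq
      obtain ⟨σ, hσ⟩ : ∃ σ, σ = (algebraMap k L u * y q.2 - y q.1) / Δ := ⟨_, rfl⟩
      obtain ⟨τ, hτ⟩ : ∃ τ, τ = (x q.1 - algebraMap k L u * x q.2) / Δ := ⟨_, rfl⟩
      have hτ0 : τ ≠ 0 := by rw [hτ]; exact div_ne_zero a1 hΔ0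
      have hτo : P.ord τ ≤ po P x - po P (pl x y) := by
        rw [hτ, P.ord_div a1 hΔ0, hΔ, hqP]
        omega
      have hfi : ∀ i, σ - τ * s i ≠ 0 ∧ P.ord (σ - τ * s i) ≤
          po P (Pt x y (s i)) - po P (pl x y) := by
        intro i
        have h2 : σ - τ * s i = - ((Pt x y (s i) q.1 - algebraMap k L u * Pt x y (s i) q.2) /
            Δ) := by
          rw [hσ, hτ]
          simp only [Pt]
          field_simp
          ring
        rw [h2, P.ord_neg, P.ord_div (b12 i).1 hΔ0, hΔ, hqP]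
        refine ⟨neg_ne_zero.2 (div_ne_zero (b12 i).1 (by rw [← hΔ]; exact hΔ0)), ?_⟩
        have := (b12 i).2
        omega
      have h2 : Ge P 0 (eval (fun l => σ * x l + τ * y l) F) := by
        refine ge_eval P (fun l => ?_) fun v => by
          obtain ⟨c, hc⟩ := hFk v
          rw [hc]
          exact Ge.const _
        have h3 : σ * x l + τ * y l =
            (algebraMap k L u * pl x y (l, q.2) + pl x y (q.1, l)) / Δ := by
          rw [hσ, hτ]
          simp only [pl]
          field_simp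
          ring
        rw [h3, div_eq_mul_inv]
        have h4 : Ge P (po P (pl x y)) (algebraMap k L u * pl x y (l, q.2) + pl x y (q.1, l)) := by
          have h5 := (Ge.const (P := P) u).mul (ge_po P (pl x y) (l, q.2))
          rw [zero_add] at h5
          exact h5.add (ge_po P (pl x y) (q.1, l))
        have h5 : Ge P (-po P (pl x y)) Δ⁻¹ := by
          right
          rw [P.ord_inv, hΔ, hqP]
        exact (h4.mul h5).mono (by omega)
      rw [hfac2 σ τ hτ0] at h2
      have h3 : ∏ i, (σ - τ * s i) ≠ 0 := Finset.prod_ne_zero_iff.2 fun i _ => (hfi i).1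
      have h4 := h2.resolve_left (mul_ne_zero (pow_ne_zero _ hτ0) (mul_ne_zero hc0 h3))
      rw [P.ord_mul (pow_ne_zero _ hτ0) (mul_ne_zero hc0 h3), P.ord_mul hc0 h3, P.ord_pow,
        Pool.Agent.TH145.GC.ord_prod P Finset.univ _ (fun i _ => (hfi i).1)] at h4
      have h5 : ∑ i, P.ord (σ - τ * s i) ≤ ∑ i, po P (Pt x y (s i)) - N * po P (pl x y) := by
        have h6 := Finset.sum_le_sum fun i (_ : i ∈ (Finset.univ : Finset (Fin N))) => (hfi i).2
        rw [Finset.sum_sub_distrib, Finset.sum_const, Finset.card_univ, Fintype.card_fin,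
          nsmul_eq_mul] at h6
        exact h6
      have h6 : (r : ℤ) * P.ord τ ≤ r * (po P x - po P (pl x y)) :=
        mul_le_mul_of_nonneg_left hτo (by positivity)
      have h7 : (d : ℤ) = N + r := by exact_mod_cast hN.symm
      rw [h7]
      linarith
  rw [finsum_add_distrib (fin_add (fin_mul f3 _) (fin_mul f1 _)) (fin_mul (fin_sum _ f2) (-1)),
    finsum_add_distrib (fin_mul f3 _) (fin_mul f1 _), ← mul_finsum _ (d : ℤ),
    ← mul_finsum _ (-r : ℤ), ← mul_finsum _ (-1), finsum_sum_comm _ _ fun i _ => f2 i] at h1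
  have h2 : ∑ i, pht k (Pt x y (s i)) = - ∑ i, ∑ᶠ P : Place k L, po P (Pt x y (s i)) := by
    rw [← Finset.sum_neg_distrib]
    exact Finset.sum_congr rfl fun i _ => rfl
  rw [h2, ← Pool.Agent.Y735.fht_fin]
  unfold fht
  linarith

end

end Pool.Agent.H435.VG
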