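import Pool.Agent.H435.VG.Fun

/-!
Forms on a line as polynomials, and derivations.
-/

set_option autoImplicit false

open MvPolynomial FF Pool.Agent.W603.LV Pool.Agent.W603.PV Pool.Agent.TH145.GH
open Pool.Agent.Y735 (lf lf_apply lf_hom eval_lf pm lf_pm sum_pm eval_pm pl DD DD_apply)

namespace Pool.Agent.H435.VG

section

variable {L : Type} [Field L]

/-- A form on the line through `u` and `w`. -/
noncomputable def lnp (G : MvPolynomial (Fin (3 + 1)) L) (u w : Fin (3 + 1) → L) : Polynomial L :=
  aeval (fun l => Polynomial.C (u l) + Polynomial.X * Polynomial.C (w l)) G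

theorem lnp_eval (G : MvPolynomial (Fin (3 + 1)) L) (u w : Fin (3 + 1) → L) (t : L) :
    (lnp G u w).eval t = eval (fun l => u l + t * w l) G := by
  have h2 : (Polynomial.evalRingHom t).comp
      ((aeval (fun l => Polynomial.C (u l) + Polynomial.X * Polynomial.C (w l)) :
        MvPolynomial (Fin (3 + 1)) L →ₐ[L] Polynomial L) :
        MvPolynomial (Fin (3 + 1)) L →+* Polynomial L) = eval (fun l => u l + t * w l) := by
    apply MvPolynomial.ringHom_ext
    · intro c
      simp
    · intro l
      rw [RingHom.comp_apply, RingHom.coe_coe, aeval_X, Polynomial.coe_evalRingHom,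
        Polynomial.eval_add, Polynomial.eval_mul, Polynomial.eval_C, Polynomial.eval_C,
        Polynomial.eval_X, eval_X]
  exact DFunLike.congr_fun h2 G

/-- The differential of a form along a line. -/
noncomputable def dln (G : MvPolynomial (Fin (3 + 1)) L) (u w : Fin (3 + 1) → L) :
    (Fin (3 + 1) → L) × (Fin (3 + 1) → L) →ₗ[L] Polynomial L where
  toFun ab := ∑ l, lnp (pderiv l G) u w *
    (Polynomial.C (ab.1 l) + Polynomial.X * Polynomial.C (ab.2 l))
  map_add' ab ab' := by
    rw [← Finset.sum_add_distrib]
    refine Finset.sum_congr rfl fun l _ => ?_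
    rw [Prod.fst_add, Prod.snd_add, Pi.add_apply, Pi.add_apply, Polynomial.C_add,
      Polynomial.C_add]
    ring
  map_smul' r ab := by
    rw [Finset.smul_sum]
    refine Finset.sum_congr rfl fun l _ => ?_
    rw [Prod.smul_fst, Prod.smul_snd, Pi.smul_apply, Pi.smul_apply, smul_eq_mul, smul_eq_mul,
      Polynomial.C_mul, Polynomial.C_mul, RingHom.id_apply, Polynomial.smul_eq_C_mul]
    ring

theorem dln_apply (G : MvPolynomial (Fin (3 + 1)) L) (u w a b : Fin (3 + 1) → L) :
    dln G u w (a, b) = ∑ l, lnp (pderiv l G) u w *
      (Polynomial.C (a l) + Polynomial.X * Polynomial.C (b l)) := rfl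

theorem dln_snd (G : MvPolynomial (Fin (3 + 1)) L) (u w b : Fin (3 + 1) → L) :
    dln G u w (0, b) = Polynomial.X * dln G u w (b, 0) := by
  rw [dln_apply, dln_apply, Finset.mul_sum]
  refine Finset.sum_congr rfl fun l _ => ?_
  simp only [Pi.zero_apply, Polynomial.C_0]
  ring

theorem dln_eval (G : MvPolynomial (Fin (3 + 1)) L) (u w a b : Fin (3 + 1) → L) (t : L) :
    (dln G u w (a, b)).eval t = dF G (fun l => u l + t * w l) (fun l => a l + t * b l) := by
  rw [dln_apply, Polynomial.eval_finsetSum]
  unfold dF
  refine Finset.sum_congr rfl fun l _ => ?_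
  rw [Polynomial.eval_mul, lnp_eval, Polynomial.eval_add, Polynomial.eval_mul, Polynomial.eval_C,
    Polynomial.eval_C, Polynomial.eval_X]

/-- The identity of Euler. -/
theorem dln_self [Infinite L] {G : MvPolynomial (Fin (3 + 1)) L} {e : ℕ} (hG : G.IsHomogeneous e)
    (u w : Fin (3 + 1) → L) : dln G u w (u, w) = (e : Polynomial L) * lnp G u w := by
  apply Polynomial.funext
  intro t
  rw [dln_eval, Polynomial.eval_mul, lnp_eval, Polynomial.eval_natCast]
  exact Pool.Agent.TH145.GC.dF_self hG _

/-- The derivative along the line. -/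
theorem lnp_derivative (G : MvPolynomial (Fin (3 + 1)) L) (u w : Fin (3 + 1) → L) :
    Polynomial.derivative (lnp G u w) = dln G u w (w, 0) := by
  induction G using MvPolynomial.induction_on with
  | C c =>
    rw [dln_apply]
    unfold lnp
    simp
  | add p q hp hq =>
    have h1 : lnp (p + q) u w = lnp p u w + lnp q u w := by unfold lnp; rw [map_add]
    rw [h1, Polynomial.derivative_add, hp, hq, dln_apply, dln_apply, dln_apply,
      ← Finset.sum_add_distrib]
    refine Finset.sum_congr rfl fun l _ => ?_
    have h2 : lnp (pderiv l (p + q)) u w = lnp (pderiv l p) u w + lnp (pderiv l q) u w := by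
      unfold lnp; rw [map_add, map_add]
    rw [h2]
    ring
  | mul_X p i hp =>
    have h1 : lnp (p * X i) u w = lnp p u w *
        (Polynomial.C (u i) + Polynomial.X * Polynomial.C (w i)) := by
      unfold lnp; rw [map_mul, aeval_X]
    rw [h1, Polynomial.derivative_mul, hp]
    have h2 : Polynomial.derivative (Polynomial.C (u i) + Polynomial.X * Polynomial.C (w i)) =
        Polynomial.C (w i) := by simp
    rw [h2, dln_apply, dln_apply]
    have h3 : ∀ l, lnp (pderiv l (p * X i)) u w = lnp (pderiv l p) u w *
        (Polynomial.C (u i) + Polynomial.X * Polynomial.C (w i)) +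
        if l = i then lnp p u w else 0 := by
      intro l
      have e1 : lnp (pderiv l p * X i) u w = lnp (pderiv l p) u w *
          (Polynomial.C (u i) + Polynomial.X * Polynomial.C (w i)) := by
        unfold lnp; rw [map_mul, aeval_X]
      rw [pderiv_mul]
      have e2 : lnp (pderiv l p * X i + p * pderiv l (X i)) u w =
          lnp (pderiv l p * X i) u w + lnp (p * pderiv l (X i)) u w := by
        unfold lnp; rw [map_add]
      rw [e2, e1]
      congr 1
      by_cases hl : l = i
      · rw [if_pos hl, hl, pderiv_X_self, mul_one]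
      · rw [if_neg hl, pderiv_X_of_ne (fun h => hl h.symm), mul_zero]
        unfold lnp
        rw [map_zero]
    simp only [h3, Pi.zero_apply, Polynomial.C_0, mul_zero, add_zero, add_mul]
    rw [Finset.sum_add_distrib]
    congr 1
    · rw [Finset.sum_mul]
      exact Finset.sum_congr rfl fun l _ => by ring
    · rw [Finset.sum_eq_single i]
      · rw [if_pos rfl]
      · intro l _ hl
        rw [if_neg hl, zero_mul]
      · intro h; exact absurd (Finset.mem_univ _) h

/-- The derivation at the coefficients of a polynomial. -/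
noncomputable def dco (E : Derivation ℤ L L) (p : Polynomial L) : Polynomial L :=
  ∑ j ∈ p.support, Polynomial.monomial j (E (p.coeff j))

theorem dco_coeff (E : Derivation ℤ L L) (p : Polynomial L) (j : ℕ) :
    (dco E p).coeff j = E (p.coeff j) := by
  unfold dco
  rw [Polynomial.finsetSum_coeff]
  simp only [Polynomial.coeff_monomial]
  rw [Finset.sum_ite_eq' p.support j]
  split_ifs with h
  · rfl
  · rw [Polynomial.notMem_support_iff.1 h, map_zero]

theorem dco_eval (E : Derivation ℤ L L) (p : Polynomial L) (t : ℕ) :
    (dco E p).eval (t : L) = E (p.eval (t : L)) := by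
  unfold dco
  rw [Polynomial.eval_finsetSum, Polynomial.eval_eq_sum, Polynomial.sum, map_sum]
  refine Finset.sum_congr rfl fun j _ => ?_
  rw [Polynomial.eval_monomial, E.leibniz, E.leibniz_pow, Derivation.map_natCast]
  simp [mul_comm]

/-- The chain rule on a line. -/
theorem chain_ln [CharZero L] {E : Derivation ℤ L L} {G G' : MvPolynomial (Fin (3 + 1)) L}
    (h : ∀ J, E (G.coeff J) = G'.coeff J) (u w : Fin (3 + 1) → L) :
    dco E (lnp G u w) = lnp G' u w + dln G u w (fun l => E (u l), fun l => E (w l)) := by
  refine Polynomial.eq_of_infinite_eval_eq _ _ ?_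
  refine (Set.infinite_range_of_injective (Nat.cast_injective (R := L))).mono ?_
  rintro _ ⟨t, rfl⟩
  change (dco E (lnp G u w)).eval (t : L) = _
  rw [dco_eval, Polynomial.eval_add, lnp_eval, lnp_eval, dln_eval]
  have h1 := chainM E (fun l => u l + (t : L) * w l) G
  rw [h1]
  congr 1
  · rw [eval_mon]
    have h2 : G'.support ⊆ G.support := by
      intro J hJ
      rw [mem_support_iff] at hJ ⊢
      intro h0
      apply hJ
      rw [← h, h0, map_zero]
    rw [← Finset.sum_subset h2 (f := fun J => E (G.coeff J) * mon (fun l => u l + (t : L) * w l) J)]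
    · exact Finset.sum_congr rfl fun J _ => by rw [h]
    · intro J _ hJ
      rw [h, notMem_support_iff.1 hJ, zero_mul]
  · unfold dF
    refine Finset.sum_congr rfl fun l _ => ?_
    rw [map_add, E.leibniz, Derivation.map_natCast]
    simp only [smul_eq_mul, mul_zero, add_zero]

end

end Pool.Agent.H435.VG
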