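import Pool.Agent.H435.VG.Ln

/-!
Lines that have a high contact with a generic surface.
-/

set_option autoImplicit false

open MvPolynomial FF Pool.Agent.W603.LV Pool.Agent.W603.PV Pool.Agent.TH145.GH
open Pool.Agent.Y735 (lf lf_apply lf_hom eval_lf pm lf_pm sum_pm eval_pm pl DD DD_apply DD_coeff)

namespace Pool.Agent.H435.VG

/-- The kernel of a surjective linear map. -/
theorem ker_span {L M N : Type} [Field L] [AddCommGroup M] [Module L M] [FiniteDimensional L M]
    [AddCommGroup N] [Module L N] [FiniteDimensional L N] (Ψ : M →ₗ[L] N)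
    (hs : Function.Surjective Ψ) {m : ℕ} (hfr : Module.finrank L M = Module.finrank L N + m)
    {v : Fin m → M} (hv : LinearIndependent L v) (hk : ∀ i, Ψ (v i) = 0) {z : M} (hz : Ψ z = 0) :
    z ∈ Submodule.span L (Set.range v) := by
  have h1 := LinearMap.finrank_range_add_finrank_ker Ψ
  rw [LinearMap.range_eq_top.2 hs, finrank_top] at h1
  have h2 : Module.finrank L (LinearMap.ker Ψ) = m := by omega
  have h3 : Submodule.span L (Set.range v) ≤ LinearMap.ker Ψ := by
    rw [Submodule.span_le]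
    rintro _ ⟨i, rfl⟩
    exact hk i
  have h4 := finrank_span_eq_card hv
  rw [Fintype.card_fin] at h4
  have h5 := Submodule.eq_of_le_of_finrank_eq h3 (by rw [h4, h2])
  rw [h5]
  exact hz

section

variable {L : Type} [Field L]

theorem exists_AB {u w : Fin (3 + 1) → L} (h : pl u w ≠ 0) : ∃ A B : Fin (3 + 1) → L,
    ∑ l, A l * u l = 1 ∧ ∑ l, A l * w l = 0 ∧ ∑ l, B l * u l = 0 ∧ ∑ l, B l * w l = 1 := by
  obtain ⟨q, hq⟩ := Function.ne_iff.1 h
  have hq' : pl u w q ≠ 0 := hq
  have hs : ∀ (r : L) (z z' : Fin (3 + 1) → L), ∑ l, (r • pm z q.1 q.2) l * z' l =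
      r * (z q.1 * z' q.2 - z q.2 * z' q.1) := by
    intro r z z'
    rw [← sum_pm, Finset.mul_sum]
    exact Finset.sum_congr rfl fun l _ => by rw [Pi.smul_apply, smul_eq_mul]; ring
  refine ⟨(-(pl u w q)⁻¹) • pm w q.1 q.2, (pl u w q)⁻¹ • pm u q.1 q.2, ?_, ?_, ?_, ?_⟩
  · rw [hs]
    have h1 : w q.1 * u q.2 - w q.2 * u q.1 = - pl u w q := by
      simp only [pl]; ring
    rw [h1]
    field_simp
  · rw [hs]
    ring
  · rw [hs]
    ring
  · rw [hs]
    have h1 : u q.1 * w q.2 - u q.2 * w q.1 = pl u w q := rfl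
    rw [h1]
    field_simp

theorem lnp_mul (G H : MvPolynomial (Fin (3 + 1)) L) (u w : Fin (3 + 1) → L) :
    lnp (G * H) u w = lnp G u w * lnp H u w := map_mul _ _ _

theorem lnp_add (G H : MvPolynomial (Fin (3 + 1)) L) (u w : Fin (3 + 1) → L) :
    lnp (G + H) u w = lnp G u w + lnp H u w := map_add _ _ _

theorem lnp_pow (G : MvPolynomial (Fin (3 + 1)) L) (e : ℕ) (u w : Fin (3 + 1) → L) :
    lnp (G ^ e) u w = lnp G u w ^ e := map_pow _ _ _

theorem lnp_smul (r : L) (G : MvPolynomial (Fin (3 + 1)) L) (u w : Fin (3 + 1) → L) :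
    lnp (r • G) u w = Polynomial.C r * lnp G u w := by
  unfold lnp
  rw [map_smul, Polynomial.smul_eq_C_mul]

theorem lnp_sum {ι : Type} (s : Finset ι) (G : ι → MvPolynomial (Fin (3 + 1)) L)
    (u w : Fin (3 + 1) → L) : lnp (∑ i ∈ s, G i) u w = ∑ i ∈ s, lnp (G i) u w := map_sum _ _ _

theorem lnp_lf (m u w : Fin (3 + 1) → L) : lnp (lf m) u w =
    Polynomial.C (∑ l, m l * u l) + Polynomial.X * Polynomial.C (∑ l, m l * w l) := by
  rw [lf_apply, lnp_sum, map_sum, map_sum, Finset.mul_sum, ← Finset.sum_add_distrib]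
  refine Finset.sum_congr rfl fun l _ => ?_
  rw [lnp_smul]
  unfold lnp
  rw [aeval_X, Polynomial.C_mul, Polynomial.C_mul]
  ring

/-- The vanishing of the coefficients of the differential. -/
theorem dln_of_der [CharZero L] {F : MvPolynomial (Fin (3 + 1)) L}
    {E : Derivation ℤ L L} {G' : MvPolynomial (Fin (3 + 1)) L}
    (h : ∀ J, E (F.coeff J) = G'.coeff J) {u w : Fin (3 + 1) → L} {j : ℕ}
    (hj : (lnp F u w).coeff j = 0) :
    (dln F u w (fun l => E (u l), fun l => E (w l))).coeff j = - (lnp G' u w).coeff j := by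
  have h1 := congrArg (fun p => p.coeff j) (chain_ln h u w)
  simp only [Polynomial.coeff_add] at h1
  rw [dco_coeff, hj, map_zero] at h1
  linear_combination -h1

variable {F : MvPolynomial (Fin (3 + 1)) L} {d : ℕ}
  {D : (Fin (3 + 1) →₀ ℕ) → Derivation ℤ L L}

/-- Lines with contact of order five. -/
theorem rank1 [CharZero L] (hF : F.IsHomogeneous d) (hD : Dual F d D) (hd : 4 ≤ d)
    {u w : Fin (3 + 1) → L} (hp : pl u w ≠ 0) (hq : ∀ j, j ≤ 4 → (lnp F u w).coeff j = 0)
    {a b : Fin (3 + 1) → L} (hab : ∀ j, j ≤ 4 → (dln F u w (a, b)).coeff j = 0) :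
    (∃ α : L, a = α • u) ∧ ∃ β γ : L, b = β • u + γ • w := by
  obtain ⟨Ψ, hΨ⟩ : ∃ Ψ : (Fin (3 + 1) → L) × (Fin (3 + 1) → L) →ₗ[L] (Fin 5 → L),
      ∀ z j, Ψ z j = (dln F u w z).coeff j :=
    ⟨LinearMap.pi fun j : Fin 5 => (Polynomial.lcoeff L (j : ℕ)) ∘ₗ dln F u w, fun z j => rfl⟩
  have hsurj : Function.Surjective Ψ := by
    intro r
    obtain ⟨A, B, hAu, hAw, hBu, hBw⟩ := exists_AB hp
    obtain ⟨H, hH⟩ : ∃ H : MvPolynomial (Fin (3 + 1)) L,
      H = ∑ j : Fin 5, r j • (lf A ^ (d - (j : ℕ)) * lf B ^ (j : ℕ)) := ⟨_, rfl⟩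
    have hHh : H.IsHomogeneous d := by
      rw [hH]
      refine IsHomogeneous.sum _ _ _ fun j _ => ?_
      rw [smul_eq_C_mul]
      have h1 := (isHomogeneous_C (Fin (3 + 1)) (r j)).mul
        (((lf_hom A).pow (d - (j : ℕ))).mul ((lf_hom B).pow (j : ℕ)))
      have h2 : 0 + (1 * (d - (j : ℕ)) + 1 * (j : ℕ)) = d := by
        have := j.2
        omega
      rwa [h2] at h1
    have hln : lnp H u w = ∑ j : Fin 5, Polynomial.C (r j) * Polynomial.X ^ (j : ℕ) := by
      rw [hH, lnp_sum]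
      refine Finset.sum_congr rfl fun j _ => ?_
      rw [lnp_smul, lnp_mul, lnp_pow, lnp_pow, lnp_lf, lnp_lf, hAu, hAw, hBu, hBw]
      simp
    refine ⟨-((fun l => DD D H (u l)), (fun l => DD D H (w l))), ?_⟩
    funext j
    rw [map_neg, Pi.neg_apply, hΨ, dln_of_der (fun J => DD_coeff hF hD hHh J)
      (hq j (by have := j.2; omega)), neg_neg, hln, Polynomial.finsetSum_coeff,
      Finset.sum_eq_single j]
    · rw [Polynomial.coeff_C_mul, Polynomial.coeff_X_pow, if_pos rfl, mul_one]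
    · intro i _ hi
      rw [Polynomial.coeff_C_mul, Polynomial.coeff_X_pow, if_neg, mul_zero]
      intro h
      exact hi (Fin.ext h.symm)
    · intro h; exact absurd (Finset.mem_univ _) h
  -- the kernel
  have hder := lnp_derivative F u w
  have hself := dln_self hF u w
  have k3 : ∀ j, (dln F u w (0, w)).coeff j = j * (lnp F u w).coeff j := by
    intro j
    rw [dln_snd, ← hder]
    cases j with
    | zero => simp
    | succ j =>
      rw [Polynomial.coeff_X_mul, Polynomial.coeff_derivative]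
      push_cast
      ring
  have k1 : ∀ j, (dln F u w (u, 0)).coeff j = (d - j) * (lnp F u w).coeff j := by
    intro j
    have h1 : ((u, 0) : (Fin (3 + 1) → L) × (Fin (3 + 1) → L)) = (u, w) - (0, w) := by
      rw [Prod.mk_sub_mk, sub_zero, sub_self]
    rw [h1, map_sub, Polynomial.coeff_sub, k3, hself, Polynomial.coeff_natCast_mul]
    ring
  have k2 : ∀ j, (dln F u w (0, u)).coeff (j + 1) = (d - j) * (lnp F u w).coeff j := by
    intro j
    rw [dln_snd, Polynomial.coeff_X_mul, k1]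
  have k20 : (dln F u w (0, u)).coeff 0 = 0 := by
    rw [dln_snd, Polynomial.coeff_X_mul_zero]
  obtain ⟨v, hv⟩ : ∃ v : Fin 3 → (Fin (3 + 1) → L) × (Fin (3 + 1) → L),
    v = ![(u, 0), (0, u), (0, w)] := ⟨_, rfl⟩
  obtain ⟨q, hq0⟩ := Function.ne_iff.1 hp
  have hq' : u q.1 * w q.2 - u q.2 * w q.1 ≠ 0 := hq0
  have hpq : ∀ α β : L, α • u + β • w = 0 → α = 0 ∧ β = 0 := by
    intro α β h
    have h1 : α * u q.1 + β * w q.1 = 0 := congrFun h q.1
    have h2 : α * u q.2 + β * w q.2 = 0 := congrFun h q.2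
    constructor
    · apply (mul_eq_zero.1 (_ : α * (u q.1 * w q.2 - u q.2 * w q.1) = 0)).resolve_right hq'
      linear_combination w q.2 * h1 - w q.1 * h2
    · apply (mul_eq_zero.1 (_ : β * (u q.1 * w q.2 - u q.2 * w q.1) = 0)).resolve_right hq'
      linear_combination u q.1 * h2 - u q.2 * h1
  have hind : LinearIndependent L v := by
    rw [Fintype.linearIndependent_iff]
    intro g hg
    rw [Fin.sum_univ_three, hv] at hg
    change g 0 • (u, (0 : Fin (3 + 1) → L)) + g 1 • ((0 : Fin (3 + 1) → L), u) +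
      g 2 • ((0 : Fin (3 + 1) → L), w) = 0 at hg
    rw [Prod.smul_mk, Prod.smul_mk, Prod.smul_mk, Prod.mk_add_mk, Prod.mk_add_mk, smul_zero,
      smul_zero, smul_zero, add_zero, add_zero, zero_add, Prod.mk_eq_zero] at hg
    have h1 := (hpq (g 0) 0 (by rw [zero_smul, add_zero]; exact hg.1)).1
    have h2 := hpq (g 1) (g 2) hg.2
    intro i
    fin_cases i
    · exact h1
    · exact h2.1
    · exact h2.2
  have hk : ∀ i, Ψ (v i) = 0 := by
    intro i
    funext j
    have hj : (j : ℕ) ≤ 4 := by have := j.2; omega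
    rw [hΨ, hv]
    fin_cases i
    · change (dln F u w (u, 0)).coeff j = 0
      rw [k1, hq _ hj, mul_zero]
    · change (dln F u w (0, u)).coeff j = 0
      obtain ⟨j, hj5⟩ := j
      change (dln F u w (0, u)).coeff j = 0
      cases j with
      | zero => exact k20
      | succ j =>
        rw [k2, hq j (by omega), mul_zero]
    · change (dln F u w (0, w)).coeff j = 0
      rw [k3, hq _ hj, mul_zero]
  have hz : Ψ (a, b) = 0 := by
    funext j
    rw [hΨ]
    exact hab _ (by have := j.2; omega)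
  have h1 := ker_span Ψ hsurj (m := 3) (by
    rw [Module.finrank_prod, Module.finrank_fin_fun, Module.finrank_fin_fun]) hind hk hz
  rw [Submodule.mem_span_range_iff_exists_fun] at h1
  obtain ⟨g, hg⟩ := h1
  rw [Fin.sum_univ_three, hv] at hg
  change g 0 • (u, (0 : Fin (3 + 1) → L)) + g 1 • ((0 : Fin (3 + 1) → L), u) +
    g 2 • ((0 : Fin (3 + 1) → L), w) = (a, b) at hg
  rw [Prod.smul_mk, Prod.smul_mk, Prod.smul_mk, Prod.mk_add_mk, Prod.mk_add_mk, smul_zero,
    smul_zero, smul_zero, add_zero, add_zero, zero_add, Prod.mk.injEq] at hg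
  exact ⟨⟨g 0, hg.1.symm⟩, g 1, g 2, hg.2.symm⟩

/-- A generic surface contains no lines. -/
theorem no_line [CharZero L] (hF : F.IsHomogeneous d) (hD : Dual F d D) (hd : 4 ≤ d)
    {u w : Fin (3 + 1) → L} (hp : pl u w ≠ 0) : lnp F u w ≠ 0 := by
  intro h0
  obtain ⟨⟨α, hα⟩, -⟩ := rank1 hF hD hd hp (fun j _ => by rw [h0, Polynomial.coeff_zero])
    (a := w) (b := 0) fun j _ => by
      rw [← lnp_derivative, h0, Polynomial.derivative_zero, Polynomial.coeff_zero]
  apply hp
  funext q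
  simp only [pl, Pi.zero_apply]
  rw [hα]
  simp only [Pi.smul_apply, smul_eq_mul]
  ring

end

end Pool.Agent.H435.VG
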