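import Pool.Agent.H435.VG.Rank

/-!
Lines that have contact of order four with a generic surface at a parabolic point.
-/

set_option autoImplicit false

open MvPolynomial FF Pool.Agent.W603.LV Pool.Agent.W603.PV Pool.Agent.TH145.GH
open Pool.Agent.Y735 (lf lf_apply lf_hom eval_lf pm lf_pm sum_pm eval_pm pl DD DD_apply DD_coeff
  vec dF_vec)

namespace Pool.Agent.H435.VG

section

variable {L : Type} [Field L] {F : MvPolynomial (Fin (3 + 1)) L} {d : ℕ}
  {D : (Fin (3 + 1) →₀ ℕ) → Derivation ℤ L L}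

theorem dln_w (G : MvPolynomial (Fin (3 + 1)) L) (u w : Fin (3 + 1) → L) (j : ℕ) :
    (dln G u w (0, w)).coeff j = j * (lnp G u w).coeff j := by
  rw [dln_snd, ← lnp_derivative]
  cases j with
  | zero => simp
  | succ j =>
    rw [Polynomial.coeff_X_mul, Polynomial.coeff_derivative]
    push_cast
    ring

theorem dln_u [Infinite L] {G : MvPolynomial (Fin (3 + 1)) L} {e : ℕ} (hG : G.IsHomogeneous e)
    (u w : Fin (3 + 1) → L) (j : ℕ) :
    (dln G u w (u, 0)).coeff j = (e - j) * (lnp G u w).coeff j := by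
  have h1 : ((u, 0) : (Fin (3 + 1) → L) × (Fin (3 + 1) → L)) = (u, w) - (0, w) := by
    rw [Prod.mk_sub_mk, sub_zero, sub_self]
  rw [h1, map_sub, Polynomial.coeff_sub, dln_w, dln_self hG, Polynomial.coeff_natCast_mul]
  ring

theorem pd_lf (m : Fin (3 + 1) → L) (p : Fin (3 + 1)) : pderiv p (lf m) = C (m p) := by
  rw [lf_apply, map_sum, Finset.sum_eq_single p]
  · rw [Derivation.map_smul, pderiv_X_self, smul_eq_C_mul, mul_one]
  · intro i _ hi
    rw [Derivation.map_smul, pderiv_X_of_ne hi, smul_zero]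
  · intro h; exact absurd (Finset.mem_univ _) h

theorem lnp_C (r : L) (u w : Fin (3 + 1) → L) : lnp (C r) u w = Polynomial.C r := by
  unfold lnp
  rw [aeval_C]
  rfl

theorem lnp_pd_pow (m : Fin (3 + 1) → L) (e : ℕ) (p : Fin (3 + 1)) (u w : Fin (3 + 1) → L) :
    lnp (pderiv p (lf m ^ e)) u w = (e : Polynomial L) * lnp (lf m) u w ^ (e - 1) *
      Polynomial.C (m p) := by
  have h1 : pderiv p (lf m ^ e) = (e : MvPolynomial (Fin (3 + 1)) L) * lf m ^ (e - 1) *
      C (m p) := by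
    rw [pderiv_pow, pd_lf]
  rw [h1]
  unfold lnp
  rw [map_mul, map_mul, map_pow, map_natCast, aeval_C]
  rfl

/-- Lines of contact of order four at a parabolic point. -/
theorem rank2 [CharZero L] (hF : F.IsHomogeneous d) (hD : Dual F d D) (hd : 4 ≤ d)
    {u w : Fin (3 + 1) → L} (hp : pl u w ≠ 0) (hq0 : (lnp F u w).coeff 0 = 0)
    (hq1 : ∀ p, (lnp (pderiv p F) u w).coeff 1 = 0) (hq3 : (lnp F u w).coeff 3 = 0)
    {a b : Fin (3 + 1) → L} (h0 : (dln F u w (a, b)).coeff 0 = 0)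
    (h1 : ∀ p, (dln (pderiv p F) u w (a, b)).coeff 1 = 0)
    (h3 : (dln F u w (a, b)).coeff 3 = 0) :
    (∃ α : L, a = α • u) ∧ ∃ γ : L, b = γ • w := by
  obtain ⟨Ψ, hΨ1, hΨ2, hΨ3⟩ : ∃ Ψ : (Fin (3 + 1) → L) × (Fin (3 + 1) → L) →ₗ[L]
      (L × (Fin (3 + 1) → L)) × L, (∀ z, (Ψ z).1.1 = (dln F u w z).coeff 0) ∧
      (∀ z p, (Ψ z).1.2 p = (dln (pderiv p F) u w z).coeff 1) ∧
      ∀ z, (Ψ z).2 = (dln F u w z).coeff 3 :=
    ⟨(((Polynomial.lcoeff L 0) ∘ₗ dln F u w).prod (LinearMap.pi fun p =>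
      (Polynomial.lcoeff L 1) ∘ₗ dln (pderiv p F) u w)).prod
      ((Polynomial.lcoeff L 3) ∘ₗ dln F u w), fun z => rfl, fun z p => rfl, fun z => rfl⟩
  have hd1 : ((d - 1 : ℕ) : L) ≠ 0 := by
    rw [Nat.cast_ne_zero]
    omega
  have hd2 : ((d - 2 : ℕ) : L) = ((d - 1 : ℕ) : L) - 1 := by
    have : d - 1 = (d - 2) + 1 := by omega
    rw [this]
    push_cast
    ring
  have h2ne : (2 : L) ≠ 0 := two_ne_zero
  have hsurj : Function.Surjective Ψ := by
    rintro ⟨⟨r0, g⟩, r3⟩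
    obtain ⟨A, B, hAu, hAw, hBu, hBw⟩ := exists_AB hp
    obtain ⟨gu, hgu⟩ : ∃ gu, gu = ∑ l, g l * u l := ⟨_, rfl⟩
    obtain ⟨gw, hgw⟩ : ∃ gw, gw = ∑ l, g l * w l := ⟨_, rfl⟩
    obtain ⟨M, hM⟩ : ∃ M : Fin (3 + 1) → L, M = g -
      (((d - 2 : ℕ) : L) / ((d - 1 : ℕ) : L) * gu) • A - (gw / 2) • B := ⟨_, rfl⟩
    have hMs : ∀ z : Fin (3 + 1) → L, ∑ l, M l * z l = ∑ l, g l * z l -
        (((d - 2 : ℕ) : L) / ((d - 1 : ℕ) : L) * gu) * ∑ l, A l * z l -
        (gw / 2) * ∑ l, B l * z l := by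
      intro z
      rw [Finset.mul_sum, Finset.mul_sum, ← Finset.sum_sub_distrib, ← Finset.sum_sub_distrib]
      refine Finset.sum_congr rfl fun l _ => ?_
      rw [hM, Pi.sub_apply, Pi.sub_apply, Pi.smul_apply, Pi.smul_apply, smul_eq_mul, smul_eq_mul]
      ring
    have hMu : ∑ l, M l * u l = gu / ((d - 1 : ℕ) : L) := by
      rw [hMs, hAu, hBu, ← hgu, hd2]
      field_simp
      ring
    have hMw : ∑ l, M l * w l = gw / 2 := by
      rw [hMs, hAw, hBw, ← hgw]
      field_simp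
      ring
    obtain ⟨H, hH⟩ : ∃ H : MvPolynomial (Fin (3 + 1)) L,
      H = r0 • lf A ^ d + lf A ^ (d - 2) * (lf B ^ 1 * lf M ^ 1) +
        r3 • (lf A ^ (d - 3) * lf B ^ 3) := ⟨_, rfl⟩
    have hHh : H.IsHomogeneous d := by
      rw [hH, smul_eq_C_mul, smul_eq_C_mul]
      refine IsHomogeneous.add (IsHomogeneous.add ?_ ?_) ?_
      · have e1 := (isHomogeneous_C (Fin (3 + 1)) r0).mul ((lf_hom A).pow d)
        have e2 : 0 + 1 * d = d := by omega
        rwa [e2] at e1
      · have e1 := ((lf_hom A).pow (d - 2)).mul (((lf_hom B).pow 1).mul ((lf_hom M).pow 1))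
        have e2 : 1 * (d - 2) + (1 * 1 + 1 * 1) = d := by omega
        rwa [e2] at e1
      · have e1 := (isHomogeneous_C (Fin (3 + 1)) r3).mul
          (((lf_hom A).pow (d - 3)).mul ((lf_hom B).pow 3))
        have e2 : 0 + (1 * (d - 3) + 1 * 3) = d := by omega
        rwa [e2] at e1
    have lA : lnp (lf A) u w = 1 := by rw [lnp_lf, hAu, hAw]; simp
    have lB : lnp (lf B) u w = Polynomial.X := by rw [lnp_lf, hBu, hBw]; simp
    have lM : lnp (lf M) u w = Polynomial.C (gu / ((d - 1 : ℕ) : L)) +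
        Polynomial.X * Polynomial.C (gw / 2) := by rw [lnp_lf, hMu, hMw]
    have hln : lnp H u w = Polynomial.C r0 +
        Polynomial.C (gu / ((d - 1 : ℕ) : L)) * Polynomial.X ^ 1 +
        Polynomial.C (gw / 2) * Polynomial.X ^ 2 + Polynomial.C r3 * Polynomial.X ^ 3 := by
      rw [hH, lnp_add, lnp_add, lnp_smul, lnp_smul, lnp_mul, lnp_mul, lnp_mul, lnp_pow, lnp_pow,
        lnp_pow, lnp_pow, lnp_pow, lnp_pow, lA, lB, lM]
      simp only [one_pow, one_mul, mul_one, pow_one]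
      ring
    have hlnp : ∀ p, lnp (pderiv p H) u w = Polynomial.C (r0 * d * A p +
          gu / ((d - 1 : ℕ) : L) * B p) +
        Polynomial.C (((d - 2 : ℕ) : L) * A p * (gu / ((d - 1 : ℕ) : L)) +
          B p * (gw / 2) + M p) * Polynomial.X ^ 1 +
        Polynomial.C (((d - 2 : ℕ) : L) * A p * (gw / 2) + 3 * r3 * B p) * Polynomial.X ^ 2 +
        Polynomial.C (r3 * ((d - 3 : ℕ) : L) * A p) * Polynomial.X ^ 3 := by
      intro p
      have e1 : pderiv p H = r0 • pderiv p (lf A ^ d) +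
          (pderiv p (lf A ^ (d - 2)) * (lf B ^ 1 * lf M ^ 1) + lf A ^ (d - 2) *
            (pderiv p (lf B ^ 1) * lf M ^ 1 + lf B ^ 1 * pderiv p (lf M ^ 1))) +
          r3 • (pderiv p (lf A ^ (d - 3)) * lf B ^ 3 + lf A ^ (d - 3) * pderiv p (lf B ^ 3)) := by
        rw [hH, map_add, map_add, Derivation.map_smul, Derivation.map_smul, pderiv_mul,
          pderiv_mul, pderiv_mul]
      rw [e1]
      simp only [lnp_add, lnp_smul, lnp_mul, lnp_pd_pow, lnp_pow, lA, lB, lM]
      have e3 : (3 : ℕ) - 1 = 2 := rfl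
      have e4 : (1 : ℕ) - 1 = 0 := rfl
      simp only [one_pow, one_mul, mul_one, pow_one, e3, e4, pow_zero, Nat.cast_one,
        Polynomial.C_add, Polynomial.C_mul, Polynomial.C_eq_natCast]
      have e5 : ((3 : ℕ) : Polynomial L) = 3 := by norm_num
      have e6 : Polynomial.C (3 : L) = 3 := map_ofNat Polynomial.C 3
      rw [e5, e6]
      ring
    refine ⟨-((fun l => DD D H (u l)), (fun l => DD D H (w l))), ?_⟩
    have c0 := dln_of_der (fun J => DD_coeff hF hD hHh J) hq0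
    have c3 := dln_of_der (fun J => DD_coeff hF hD hHh J) hq3
    have c1 := fun p => dln_of_der (F := pderiv p F) (E := DD D H) (G' := pderiv p H)
      (fun J => by
        rw [coeff_pderiv, coeff_pderiv, (DD D H).leibniz, DD_coeff hF hD hHh, map_add,
          Derivation.map_natCast, Derivation.map_one_eq_zero]
        simp only [smul_eq_mul]
        ring) (hq1 p)
    have f1 : (Ψ (-((fun l => DD D H (u l)), (fun l => DD D H (w l))))).1.1 = r0 := by
      rw [map_neg, Prod.fst_neg, Prod.fst_neg, hΨ1, c0, neg_neg, hln]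
      simp [Polynomial.coeff_X, Polynomial.coeff_C]
    have f3 : (Ψ (-((fun l => DD D H (u l)), (fun l => DD D H (w l))))).2 = r3 := by
      rw [map_neg, Prod.snd_neg, hΨ3, c3, neg_neg, hln]
      simp [Polynomial.coeff_X_pow]
    have f2 : (Ψ (-((fun l => DD D H (u l)), (fun l => DD D H (w l))))).1.2 = g := by
      funext p
      rw [map_neg, Prod.fst_neg, Prod.snd_neg, Pi.neg_apply, hΨ2, c1, neg_neg, hlnp]
      have e8 : M p = g p - ((d - 2 : ℕ) : L) / ((d - 1 : ℕ) : L) * gu * A p - gw / 2 * B p := by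
        rw [hM]
        rfl
      rw [e8]
      simp only [Polynomial.coeff_add, Polynomial.coeff_C_mul, Polynomial.coeff_X_pow,
        Polynomial.coeff_C]
      norm_num
      field_simp
      ring
    exact Prod.ext (Prod.ext f1 f2) f3
  -- the kernel
  obtain ⟨v, hv⟩ : ∃ v : Fin 2 → (Fin (3 + 1) → L) × (Fin (3 + 1) → L),
    v = ![(u, 0), (0, w)] := ⟨_, rfl⟩
  obtain ⟨q, hqq⟩ := Function.ne_iff.1 hp
  have hu0 : u ≠ 0 := by
    rintro rfl
    apply hp
    funext q
    simp [pl]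
  have hw0 : w ≠ 0 := by
    rintro rfl
    apply hp
    funext q
    simp [pl]
  have hind : LinearIndependent L v := by
    rw [Fintype.linearIndependent_iff]
    intro g hg
    rw [Fin.sum_univ_two, hv] at hg
    change g 0 • (u, (0 : Fin (3 + 1) → L)) + g 1 • ((0 : Fin (3 + 1) → L), w) = 0 at hg
    rw [Prod.smul_mk, Prod.smul_mk, Prod.mk_add_mk, smul_zero,
      smul_zero, add_zero, zero_add, Prod.mk_eq_zero] at hg
    intro i
    fin_cases i
    · exact (smul_eq_zero.1 hg.1).resolve_right hu0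
    · exact (smul_eq_zero.1 hg.2).resolve_right hw0
  have hk : ∀ i, Ψ (v i) = 0 := by
    intro i
    rw [hv]
    fin_cases i
    · change Ψ (u, 0) = 0
      refine Prod.ext (Prod.ext ?_ ?_) ?_
      · rw [hΨ1, dln_u hF, hq0, mul_zero]
        rfl
      · funext p
        rw [hΨ2, dln_u (hF.pderiv (i := p)), hq1, mul_zero]
        rfl
      · rw [hΨ3, dln_u hF, hq3, mul_zero]
        rfl
    · change Ψ (0, w) = 0
      refine Prod.ext (Prod.ext ?_ ?_) ?_
      · rw [hΨ1, dln_w, hq0, mul_zero]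
        rfl
      · funext p
        rw [hΨ2, dln_w, hq1, mul_zero]
        rfl
      · rw [hΨ3, dln_w, hq3, mul_zero]
        rfl
  have hz : Ψ (a, b) = 0 := by
    refine Prod.ext (Prod.ext ?_ ?_) ?_
    · rw [hΨ1, h0]
      rfl
    · funext p
      rw [hΨ2, h1]
      rfl
    · rw [hΨ3, h3]
      rfl
  have h4 := ker_span Ψ hsurj (m := 2) (by
    rw [Module.finrank_prod, Module.finrank_prod, Module.finrank_prod, Module.finrank_fin_fun,
      Module.finrank_self]) hind hk hz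
  rw [Submodule.mem_span_range_iff_exists_fun] at h4
  obtain ⟨g, hg⟩ := h4
  rw [Fin.sum_univ_two, hv] at hg
  change g 0 • (u, (0 : Fin (3 + 1) → L)) + g 1 • ((0 : Fin (3 + 1) → L), w) = (a, b) at hg
  rw [Prod.smul_mk, Prod.smul_mk, Prod.mk_add_mk, smul_zero,
    smul_zero, add_zero, zero_add, Prod.mk.injEq] at hg
  exact ⟨⟨g 0, hg.1.symm⟩, g 1, hg.2.symm⟩

/-- A generic surface is smooth. -/
theorem smooth [CharZero L] (hF : F.IsHomogeneous d) (hD : Dual F d D) (hd : 1 ≤ d)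
    {u : Fin (3 + 1) → L} (hu : u ≠ 0) : ∃ p, eval u (pderiv p F) ≠ 0 := by
  by_contra hcon
  push Not at hcon
  obtain ⟨a, ha⟩ := Function.ne_iff.1 hu
  have ha' : u a ≠ 0 := ha
  have h1 : ∀ z, dF F u z = 0 := fun z => by
    unfold dF
    exact Finset.sum_eq_zero fun l _ => by rw [hcon, zero_mul]
  have h2 := Pool.Agent.TH145.GC.dF_self hF u
  rw [h1] at h2
  have hd0 : (d : L) ≠ 0 := by
    rw [Nat.cast_ne_zero]
    omega
  have h3 : eval u F = 0 := (mul_eq_zero.1 h2.symm).resolve_left hd0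
  have h4 := dF_vec hF hD u (pow_hom a d)
  rw [h1, h3, map_zero, map_pow, eval_X, zero_sub] at h4
  exact pow_ne_zero d ha' (neg_eq_zero.1 h4.symm)

/-- Points of a generic surface on a constant line. -/
theorem stable [CharZero L] (hF : F.IsHomogeneous d) {E : Derivation ℤ L L}
    (hE : ∀ J, E (F.coeff J) = 0) {x u : Fin (3 + 1) → L} (hx : eval x F = 0)
    (hne : lnp F x u ≠ 0) {α β γ : L} (hu : (fun l => E (u l)) = α • u)
    (hx' : (fun l => E (x l)) = β • u + γ • x) : β = 0 := by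
  obtain ⟨r, hr⟩ : ∃ r, r = (lnp F x u).natTrailingDegree := ⟨_, rfl⟩
  have hr1 : (lnp F x u).coeff r ≠ 0 := by
    rw [hr]
    exact Polynomial.trailingCoeff_nonzero_iff_nonzero.2 hne
  have hr2 : ∀ j, j < r → (lnp F x u).coeff j = 0 := fun j hj =>
    Polynomial.coeff_eq_zero_of_lt_natTrailingDegree (by rw [← hr]; exact hj)
  have hr0 : r ≠ 0 := by
    rintro rfl
    apply hr1
    rw [Polynomial.coeff_zero_eq_eval_zero, lnp_eval]
    have h1 : (fun l => x l + 0 * u l) = x := by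
      funext l
      rw [zero_mul, add_zero]
    rw [h1, hx]
  obtain ⟨m, rfl⟩ := Nat.exists_eq_succ_of_ne_zero hr0
  have h1 := dln_of_der (F := F) (E := E) (G' := 0) (fun J => by rw [hE, coeff_zero])
    (hr2 m (Nat.lt_succ_self m))
  rw [hu, hx'] at h1
  have h2 : ((β • u + γ • x, α • u) : (Fin (3 + 1) → L) × (Fin (3 + 1) → L)) =
      β • (u, 0) + γ • (x, 0) + α • (0, u) := by
    rw [Prod.smul_mk, Prod.smul_mk, Prod.smul_mk, Prod.mk_add_mk, Prod.mk_add_mk, smul_zero,
      smul_zero, smul_zero, add_zero, add_zero, zero_add]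
  have h3 : (dln F x u (u, 0)).coeff m = (lnp F x u).coeff (m + 1) * (m + 1) := by
    rw [← lnp_derivative, Polynomial.coeff_derivative]
  have h4 : lnp (0 : MvPolynomial (Fin (3 + 1)) L) x u = 0 := by
    unfold lnp
    rw [map_zero]
  rw [h2, map_add, map_add, map_smul, map_smul, map_smul, Polynomial.coeff_add,
    Polynomial.coeff_add, Polynomial.coeff_smul, Polynomial.coeff_smul, Polynomial.coeff_smul,
    h3, dln_u hF, dln_w, hr2 m (Nat.lt_succ_self m), h4, Polynomial.coeff_zero, mul_zero,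
    mul_zero, smul_zero, smul_zero, add_zero, add_zero, neg_zero, smul_eq_mul] at h1
  refine (mul_eq_zero.1 h1).resolve_right (mul_ne_zero hr1 ?_)
  exact_mod_cast Nat.succ_ne_zero m

end

end Pool.Agent.H435.VG
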